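import Pool.Agent.W5h22.CD.D
import Pool.Agent.R485.RG.Mtp

/-!
# CD.E: full measure and dimension
-/

set_option autoImplicit false

namespace Pool.Agent.W5h22.CD

open Filter MeasureTheory

theorem full {P : ℝ → ℕ → Prop} {M s η : ℝ} (hη : 0 < η) (hη1 : η ≤ 1)
    (hN : ∀ a b : ℝ, 0 ≤ a → a < b → b ≤ M → ∃ x₀ : ℝ, ∀ x : ℝ, x₀ ≤ x →
      ∃ G : Set ℝ, MeasurableSet G ∧ G ⊆ Set.Icc a b ∧ (∀ y ∈ G, ∃ p : ℕ, P x p ∧ |y - p / x| < x ^ (-s)) ∧
        η * (b - a) ≤ volume.real G)
    (x : ℕ → ℝ) (hx : Tendsto x atTop atTop) :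
    ∀ᵐ y ∂(volume : Measure ℝ), y ∈ Set.Ioo 0 (M / 2) →
      ∃ᶠ k in atTop, ∃ p : ℕ, P (x k) p ∧ |y - p / x k| < x k ^ (-s) := by
  have h1 : ∀ N : ℕ, volume {y : ℝ | y ∈ Set.Ioo 0 (M / 2) ∧
      ∀ k, N ≤ k → ¬ ∃ p : ℕ, P (x k) p ∧ |y - p / x k| < x k ^ (-s)} = 0 := by
    intro N
    apply null_real _ (fun y hy => hy.1.1) η hη
    intro u v hu huv huv2
    rcases le_or_gt v M with hvM | hvM
    · obtain ⟨x₀, hx₀⟩ := hN u v hu.le huv hvM
      obtain ⟨k, hk1, hk2⟩ := ((hx.eventually (eventually_ge_atTop x₀)).and (eventually_ge_atTop N)).exists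
      obtain ⟨G, hG1, hG2, hG3, hG4⟩ := hx₀ (x k) hk1
      refine ⟨G, hG1, hG2, ?_, hG4⟩
      intro y hy hyS
      exact hyS.2 k hk2 (hG3 y hy)
    · refine ⟨Set.Icc u v, measurableSet_Icc, subset_rfl, ?_, ?_⟩
      · intro y hy hyS
        have h2 := hyS.1.2
        have h3 := hy.1
        linarith
      · rw [Measure.real, Real.volume_Icc, ENNReal.toReal_ofReal (by linarith)]
        nlinarith
  have h2 : ∀ᵐ y ∂(volume : Measure ℝ), ∀ N : ℕ, ¬ (y ∈ Set.Ioo 0 (M / 2) ∧
      ∀ k, N ≤ k → ¬ ∃ p : ℕ, P (x k) p ∧ |y - p / x k| < x k ^ (-s)) := by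
    rw [ae_all_iff]
    intro N
    rw [ae_iff]
    have := h1 N
    simpa only [not_not] using this
  filter_upwards [h2] with y hy hyM
  rw [frequently_atTop]
  intro N
  by_contra hcon
  push Not at hcon
  apply hy N
  refine ⟨hyM, ?_⟩
  intro k hk
  rintro ⟨p, hp1, hp2⟩
  exact absurd hp2 (not_lt.2 (hcon k hk p hp1))

/-- an affine substitution in an almost-everywhere statement -/
theorem ae_affine {Q : ℝ → Prop} {a l : ℝ} (hl : l ≠ 0) (h : ∀ᵐ y ∂(volume : Measure ℝ), Q y) :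
    ∀ᵐ x ∂(volume : Measure ℝ), Q (a + l * x) := by
  rw [ae_iff] at h ⊢
  have h1 : {x : ℝ | ¬ Q (a + l * x)} = (fun x => l * x) ⁻¹' ((fun y => a + y) ⁻¹' {y | ¬ Q y}) := rfl
  rw [h1, Real.volume_preimage_mul_left hl, measure_preimage_add, h, mul_zero]

/-- **dimension**: the points which are very near to good points, for countably many families -/
theorem dim_good {P : ℕ → ℝ → ℕ → Prop} {M a b : ℝ} (ha : 0 < a) (hab : a < b) (hbM : b < M / 2)
    (hN : ∀ i, ∀ s : ℝ, 0 < s → s < 1 → ∃ η : ℝ, 0 < η ∧ ∀ a b : ℝ, 0 ≤ a → a < b → b ≤ M →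
      ∃ x₀ : ℝ, ∀ x : ℝ, x₀ ≤ x →
      ∃ G : Set ℝ, MeasurableSet G ∧ G ⊆ Set.Icc a b ∧ (∀ y ∈ G, ∃ p : ℕ, P i x p ∧ |y - p / x| < x ^ (-s)) ∧
        η * (b - a) ≤ volume.real G)
    (x : ℕ → ℕ → ℝ) (hx : ∀ i, Tendsto (x i) atTop atTop) (κ : ℕ → ℝ) (hκ : ∀ i, 0 < κ i)
    (hκ1 : ∀ i, κ i ≤ 1) (S : Set ℝ)
    (hS : ∀ y ∈ Set.Icc a b, (∀ i, ∃ᶠ k in atTop, ∃ p : ℕ, P i (x i k) p ∧
      |y * x i k - (p + 1 - κ i)| < κ i) → y ∈ S) :
    1 ≤ dimH S := by
  have main : ∀ t : ℝ, 0 < t → t < 1 → ENNReal.ofReal t ≤ dimH S := by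
    intro t ht0 ht1
    obtain ⟨s, hsd⟩ : ∃ s : ℝ, s = (1 + t) / 2 := ⟨_, rfl⟩
    have hs0 : 0 < s := by rw [hsd]; linarith
    have hs1 : s < 1 := by rw [hsd]; linarith
    have hst : 1 < s / t := by
      rw [lt_div_iff₀ ht0, hsd]
      linarith
    have hl : 0 < b - a := by linarith
    -- positive sequences
    set X : ℕ → ℕ → ℝ := fun i k => max (x i k) 1 with hX
    have hX1 : ∀ i k, 1 ≤ X i k := fun i k => le_max_right _ _
    have hXt : ∀ i, Tendsto (X i) atTop atTop := fun i =>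
      tendsto_atTop_mono (fun k => le_max_left _ _) (hx i)
    have hXe : ∀ i, ∀ᶠ k in atTop, X i k = x i k := by
      intro i
      filter_upwards [(hx i).eventually (eventually_ge_atTop 1)] with k hk
      exact max_eq_left hk
    set C : ℕ → ℕ → Set ℝ := fun i k => {c | ∃ p : ℕ, P i (X i k) p ∧ a + (b - a) * c = (p + 1 - κ i) / X i k} with hC
    set ρ : ℕ → ℕ → ℝ := fun i k => 2 / (b - a) * X i k ^ (-s) with hρ
    have hρ0 : ∀ i k, 0 < ρ i k := by
      intro i k
      have := Real.rpow_pos_of_pos (lt_of_lt_of_le one_pos (hX1 i k)) (-s)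
      rw [hρ]
      positivity
    have hρt : ∀ i, Tendsto (ρ i) atTop (nhds 0) := by
      intro i
      have h1 := (tendsto_rpow_neg_atTop hs0).comp (hXt i)
      have h2 := h1.const_mul (2 / (b - a))
      rw [mul_zero] at h2
      exact h2
    have hfull : ∀ i, ∀ᵐ y ∂(volume : Measure ℝ), y ∈ Set.Ioo 0 1 →
        ∃ᶠ k in atTop, ∃ c ∈ C i k, |y - c| < ρ i k := by
      intro i
      obtain ⟨η, hη, hN'⟩ := hN i s hs0 hs1
      have h1 := full (M := M) (s := s) (η := min η 1) (lt_min hη one_pos) (min_le_right _ _)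
        (fun a b h1 h2 h3 => by
          obtain ⟨x₀, hx₀⟩ := hN' a b h1 h2 h3
          refine ⟨x₀, fun x hx => ?_⟩
          obtain ⟨G, g1, g2, g3, g4⟩ := hx₀ x hx
          refine ⟨G, g1, g2, g3, le_trans ?_ g4⟩
          apply mul_le_mul_of_nonneg_right (min_le_left _ _)
          linarith) (X i) (hXt i)
      have h2 := ae_affine (a := a) hl.ne' h1
      have h3 : ∀ᶠ k in atTop, 1 / X i k ≤ X i k ^ (-s) := by
        filter_upwards with k
        have h4 : (0 : ℝ) < X i k := lt_of_lt_of_le one_pos (hX1 i k)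
        rw [one_div, ← Real.rpow_neg_one]
        apply Real.rpow_le_rpow_of_exponent_le (hX1 i k)
        linarith
      filter_upwards [h2] with y hy hy01
      have h5 := hy ⟨by
        have := mul_pos hl hy01.1
        linarith, by
        have := mul_lt_mul_of_pos_left hy01.2 hl
        linarith⟩
      refine (h5.and_eventually h3).mono ?_
      rintro k ⟨⟨p, hp1, hp2⟩, hk⟩
      have h4 : (0 : ℝ) < X i k := lt_of_lt_of_le one_pos (hX1 i k)
      refine ⟨((p + 1 - κ i) / X i k - a) / (b - a), ⟨p, hp1, ?_⟩, ?_⟩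
      · field_simp
        ring
      · have h6 : y - ((p + 1 - κ i) / X i k - a) / (b - a) =
            ((a + (b - a) * y - p / X i k) - (1 - κ i) / X i k) / (b - a) := by
          field_simp
          ring
        rw [h6, abs_div, abs_of_pos hl, div_lt_iff₀ hl]
        have h7 : |(1 - κ i) / X i k| ≤ X i k ^ (-s) := by
          refine le_trans ?_ hk
          rw [abs_of_nonneg (div_nonneg (by linarith [hκ1 i]) h4.le)]
          apply div_le_div_of_nonneg_right _ h4.le
          linarith [hκ i]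
        have h8 : ρ i k * (b - a) = 2 * X i k ^ (-s) := by
          rw [hρ]
          field_simp
        rw [h8]
        refine lt_of_le_of_lt (abs_sub _ _) ?_
        linarith
    have hdim := Pool.Agent.R485.RG.dimI ht0 ht1.le C ρ hρ0 hρt hfull
    refine hdim.trans ?_
    -- the map
    have hanti : AntilipschitzWith (Real.toNNReal (1 / (b - a))) (fun y : ℝ => a + (b - a) * y) := by
      apply AntilipschitzWith.of_le_mul_dist
      intro u v
      rw [Real.coe_toNNReal _ (by positivity), Real.dist_eq, Real.dist_eq]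
      have h1 : a + (b - a) * u - (a + (b - a) * v) = (b - a) * (u - v) := by ring
      rw [h1, abs_mul, abs_of_pos hl]
      rw [← mul_assoc, one_div, inv_mul_cancel₀ hl.ne', one_mul]
    refine (hanti.le_dimH_image _).trans ?_
    apply dimH_mono
    rintro y ⟨c, ⟨hc01, hc⟩, rfl⟩
    apply hS
    · constructor
      · have := mul_nonneg hl.le hc01.1
        linarith
      · have := mul_le_mul_of_nonneg_left hc01.2 hl.le
        linarith
    intro i
    -- the radius
    have h1 : ∀ᶠ k in atTop, ρ i k ^ (1 / t) * (b - a) * X i k ≤ κ i := by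
      have h2 : ∀ k, ρ i k ^ (1 / t) * (b - a) * X i k =
          ((2 / (b - a)) ^ (1 / t) * (b - a)) * X i k ^ (-(s / t - 1)) := by
        intro k
        have h4 : (0 : ℝ) < X i k := lt_of_lt_of_le one_pos (hX1 i k)
        rw [hρ]
        show (2 / (b - a) * X i k ^ (-s)) ^ (1 / t) * (b - a) * X i k = _
        rw [Real.mul_rpow (by positivity) (by positivity), ← Real.rpow_mul h4.le]
        have h5 : X i k ^ (-(s / t - 1)) = X i k ^ (-s * (1 / t)) * X i k := by
          nth_rewrite 3 [← Real.rpow_one (X i k)]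
          rw [← Real.rpow_add h4]
          congr 1
          ring
        rw [h5]
        ring
      have h3 := ((tendsto_rpow_neg_atTop (show 0 < s / t - 1 by linarith)).comp (hXt i)).const_mul
        ((2 / (b - a)) ^ (1 / t) * (b - a))
      rw [mul_zero] at h3
      filter_upwards [h3.eventually (ge_mem_nhds (hκ i))] with k hk
      rw [h2]
      exact hk
    refine (((hc i).and_eventually h1).and_eventually (hXe i)).mono ?_
    rintro k ⟨⟨⟨c', ⟨p, hp1, hp2⟩, hcc⟩, hk⟩, hkX⟩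
    rw [hkX] at hp1 hp2 hk
    have h4 : (0 : ℝ) < x i k := by rw [← hkX]; exact lt_of_lt_of_le one_pos (hX1 i k)
    refine ⟨p, hp1, ?_⟩
    have h5 : (a + (b - a) * c) * x i k - (p + 1 - κ i) = (b - a) * x i k * (c - c') := by
      rw [eq_div_iff h4.ne'] at hp2
      rw [← hp2]
      ring
    rw [h5, abs_mul, abs_of_pos (mul_pos hl h4)]
    calc (b - a) * x i k * |c - c'| < (b - a) * x i k * ρ i k ^ (1 / t) :=
          mul_lt_mul_of_pos_left hcc (mul_pos hl h4)
      _ = ρ i k ^ (1 / t) * (b - a) * x i k := by ring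
      _ ≤ κ i := hk
  -- the limit `t → 1`
  by_contra hcon
  push Not at hcon
  obtain ⟨q, hq1, hq2⟩ := exists_between hcon
  have hq3 : q ≠ ⊤ := ne_top_of_lt hq2
  have hq4 : q.toReal < 1 := by
    have := (ENNReal.toReal_lt_toReal hq3 ENNReal.one_ne_top).2 hq2
    simpa using this
  have hq5 : 0 < q.toReal := ENNReal.toReal_pos (lt_of_le_of_lt bot_le hq1).ne' hq3
  have h1 := main q.toReal hq5 hq4
  rw [ENNReal.ofReal_toReal hq3] at h1
  exact absurd hq1 (not_lt.2 h1)

end Pool.Agent.W5h22.CD
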