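import Pool.Agent.Y819.MW.A
import Pool.Agent.Y843.QD.Srv
import Pool.Agent.Y843.QD.Cnt
import Pool.Agent.Y843.HS.CorC
import Pool.Agent.Y843.HG.VGold

/-!
# CD.A: the sieve upper bound for intervals, relative to the product `VV`
-/

set_option autoImplicit false

namespace Pool.Agent.W5h22.CD

open Finset Filter
open Pool.Agent.Y843.HS (Pr VV Sv EE one_le_EE VV_ge VV_split Pr_mem Pr_prime)
open Pool.Agent.Y843.QD (vZ dvd_vZ card_classes)
open Pool.Agent.Y819.MW (FLk)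

theorem EE_ratio : ∃ c : ℝ, 1 ≤ c ∧ ∀ a b : ℕ, 2 ≤ a → a ≤ b →
    EE a b ≤ c * (Real.log b / Real.log a) := by
  obtain ⟨C, hC0, hC⟩ := Pool.Agent.Helper923.HMertens.mertens_ratio
  have hl2 : (0 : ℝ) < Real.log 2 := Real.log_pos (by norm_num)
  refine ⟨Real.exp (C / Real.log 2), Real.one_le_exp_iff.2 (by positivity), ?_⟩
  intro a b ha hab
  have hla : Real.log 2 ≤ Real.log a := Real.log_le_log (by norm_num) (by exact_mod_cast ha)
  have hab' : Real.log a ≤ Real.log b :=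
    Real.log_le_log (by exact_mod_cast (show 0 < a by omega)) (by exact_mod_cast hab)
  have h4 := (abs_le.1 (hC a b ha hab)).2
  have h5 : C / Real.log a ≤ C / Real.log 2 := div_le_div_of_nonneg_left hC0 hl2 hla
  have h7 : ∑ p ∈ Pr a b, (1 : ℝ) / p ≤ C / Real.log 2 + Real.log (Real.log b / Real.log a) := by
    unfold Pr
    linarith
  have h8 : 0 < Real.log b / Real.log a := div_pos (by linarith) (by linarith)
  unfold EE
  refine (Real.exp_le_exp.2 h7).trans (le_of_eq ?_)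
  rw [Real.exp_add, Real.exp_log h8]

open Classical in
theorem sumU (P : Finset ℕ) (hP : ∀ p ∈ P, p.Prime) (M : ℕ) (f : ℕ → ℝ) (h0 : ∀ p ∈ P, 0 ≤ f p)
    (hf : ∀ p ∈ P, f p ≤ p) :
    ∑ U ∈ P.powerset.filter (fun U => ∏ p ∈ U, p ≤ M), ∏ p ∈ U, f p ≤ (M : ℝ) ^ 2 := by
  have h1 : ∀ U ∈ P.powerset.filter (fun U => ∏ p ∈ U, p ≤ M), ∏ p ∈ U, f p ≤ (M : ℝ) := by
    intro U hU
    rw [mem_filter, mem_powerset] at hU
    calc ∏ p ∈ U, f p ≤ ∏ p ∈ U, (p : ℝ) :=
          prod_le_prod (fun p hp => h0 p (hU.1 hp)) (fun p hp => hf p (hU.1 hp))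
      _ = ((∏ p ∈ U, p : ℕ) : ℝ) := by push_cast; rfl
      _ ≤ M := by exact_mod_cast hU.2
  have h2 : (P.powerset.filter (fun U => ∏ p ∈ U, p ≤ M)).card ≤ M := by
    have h3 : (P.powerset.filter (fun U => ∏ p ∈ U, p ≤ M)).card ≤ (Icc 1 M).card := by
      apply card_le_card_of_injOn (fun U => ∏ p ∈ U, p)
      · intro U hU
        rw [mem_coe, mem_filter, mem_powerset] at hU
        rw [mem_coe, mem_Icc]
        exact ⟨Nat.one_le_iff_ne_zero.2 (prod_pos fun p hp => (hP p (hU.1 hp)).pos).ne', hU.2⟩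
      · intro U hU V hV h
        rw [mem_coe, mem_filter, mem_powerset] at hU hV
        have e1 := Nat.primeFactors_prod (fun p hp => hP p (hU.1 hp))
        have e2 := Nat.primeFactors_prod (fun p hp => hP p (hV.1 hp))
        have h' : ∏ p ∈ U, p = ∏ p ∈ V, p := h
        rw [← e1, ← e2, h']
    rwa [Nat.card_Icc, Nat.add_sub_cancel] at h3
  calc ∑ U ∈ P.powerset.filter (fun U => ∏ p ∈ U, p ≤ M), ∏ p ∈ U, f p
      ≤ (P.powerset.filter (fun U => ∏ p ∈ U, p ≤ M)).card • (M : ℝ) := sum_le_card_nsmul _ _ _ h1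
    _ = ((P.powerset.filter (fun U => ∏ p ∈ U, p ≤ M)).card : ℝ) * M := by rw [nsmul_eq_mul]
    _ ≤ M * M := by
        apply mul_le_mul_of_nonneg_right _ (Nat.cast_nonneg _)
        exact_mod_cast h2
    _ = (M : ℝ) ^ 2 := by ring

theorem VV_pos {r z Y : ℕ} {Z : ℕ → Finset ℕ} (hz : 2 * r ≤ z) (h : Sv r z Y Z) : 0 < VV Z z Y := by
  have h1 := VV_ge hz h
  have h2 := one_le_EE z Y
  exact lt_of_lt_of_le (by positivity) h1

theorem pow_log (K : ℕ) (C : ℝ) {e : ℝ} (he : 0 < e) :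
    ∀ᶠ X : ℕ in atTop, C * (Real.log X + 1) ^ K ≤ (X : ℝ) ^ e := by
  have h1 : (fun x : ℝ => (Real.log x) ^ K) =o[atTop] (fun x : ℝ => x ^ e) := by
    have h := isLittleO_log_rpow_rpow_atTop (K : ℝ) he
    simpa only [Real.rpow_natCast] using h
  have h2 := h1.bound (show (0 : ℝ) < 1 / (2 ^ K * |C| + 1) by positivity)
  have h3 := (tendsto_natCast_atTop_atTop (R := ℝ)).eventually h2
  have h4 : ∀ᶠ X : ℕ in atTop, (1 : ℝ) ≤ Real.log X :=
    (Real.tendsto_log_atTop.comp (tendsto_natCast_atTop_atTop (R := ℝ))).eventually (eventually_ge_atTop 1)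
  filter_upwards [h3, h4, eventually_ge_atTop 1] with X a1 a2 a3
  have hX : (0 : ℝ) < X := by exact_mod_cast a3
  rw [Real.norm_of_nonneg (by positivity), Real.norm_of_nonneg (by positivity)] at a1
  rw [div_mul_eq_mul_div, one_mul, le_div_iff₀ (by positivity)] at a1
  have a4 : (Real.log X + 1) ^ K ≤ (2 * Real.log X) ^ K := by
    apply pow_le_pow_left₀ (by linarith)
    linarith
  calc C * (Real.log X + 1) ^ K ≤ |C| * (2 * Real.log X) ^ K := by
        apply mul_le_mul (le_abs_self C) a4 (by positivity) (abs_nonneg _)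
    _ = Real.log X ^ K * (2 ^ K * |C|) := by rw [mul_pow]; ring
    _ ≤ Real.log X ^ K * (2 ^ K * |C| + 1) := by
        have : 0 ≤ Real.log X ^ K := by positivity
        nlinarith
    _ ≤ _ := a1

theorem floor_low {β : ℝ} (hβ : 0 < β) (M : ℕ) : ∀ᶠ X : ℕ in atTop,
    M ≤ ⌊(X : ℝ) ^ β⌋₊ ∧ β / 2 * Real.log X ≤ Real.log (⌊(X : ℝ) ^ β⌋₊ : ℕ) := by
  have h1 : ∀ᶠ X : ℕ in atTop, (M + 4 : ℝ) ≤ (X : ℝ) ^ (β / 2) :=
    ((tendsto_rpow_atTop (show (0 : ℝ) < β / 2 by positivity)).comp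
      (tendsto_natCast_atTop_atTop (R := ℝ))).eventually (eventually_ge_atTop _)
  filter_upwards [h1, eventually_ge_atTop 1] with X h hX
  have hX0 : (0 : ℝ) < X := by exact_mod_cast hX
  have h2 : (X : ℝ) ^ β = (X : ℝ) ^ (β / 2) * (X : ℝ) ^ (β / 2) := by
    rw [← Real.rpow_add hX0]
    congr 1
    ring
  have h3 : (X : ℝ) ^ (β / 2) ≤ (X : ℝ) ^ β - 1 := by
    rw [h2]
    have : (0 : ℝ) ≤ M := Nat.cast_nonneg M
    nlinarith
  have h4 := Nat.lt_floor_add_one ((X : ℝ) ^ β)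
  have h5 : (X : ℝ) ^ (β / 2) ≤ (⌊(X : ℝ) ^ β⌋₊ : ℕ) := by linarith
  constructor
  · have : (M : ℝ) ≤ (⌊(X : ℝ) ^ β⌋₊ : ℕ) := by linarith
    exact_mod_cast this
  · rw [← Real.log_rpow hX0]
    apply Real.log_le_log (by positivity) h5

/-- the upper bound for the number of the integers of an interval outside of classes -/
theorem upI (r z t : ℕ) (hr : 1 ≤ r) (hz : 2 * r ≤ z) (hz2 : 2 ≤ z) (ht : 1 ≤ t) {s : ℝ} (hs : 0 < s)
    (hs1 : s < 1) : ∃ C : ℝ, 0 < C ∧ ∃ X₀ : ℕ, ∀ X : ℕ, X₀ ≤ X → ∀ Z : ℕ → Finset ℕ,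
      Sv r z ⌊(X : ℝ) ^ (1 / (t : ℝ))⌋₊ Z → ∀ A L : ℕ, (X : ℝ) ^ (1 - s) ≤ L →
      (((Ioc A (A + L)).filter (fun n => ∀ q ∈ Pr z ⌊(X : ℝ) ^ (1 / (t : ℝ))⌋₊, n % q ∉ Z q)).card : ℝ) ≤
        C * L * VV Z z ⌊(X : ℝ) ^ (1 / (t : ℝ))⌋₊ := by
  classical
  have hr0 : (0 : ℝ) < r := by exact_mod_cast hr
  have ht0 : (0 : ℝ) < t := by exact_mod_cast ht
  obtain ⟨B, hB1, hB⟩ := FLk (r : ℝ) hr0
  have hB0 : (0 : ℝ) < B := by exact_mod_cast hB1
  obtain ⟨cE, hcE1, hcE⟩ := EE_ratio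
  set β : ℝ := min (1 / (t : ℝ)) ((1 - s) / (8 * B)) with hβ
  have hβ0 : 0 < β := by
    rw [hβ]
    apply lt_min (by positivity)
    apply div_pos (by linarith) (by positivity)
  have hβt : β ≤ 1 / t := min_le_left _ _
  have hβB : 4 * β * B ≤ (1 - s) / 2 := by
    have h1 : β ≤ (1 - s) / (8 * B) := min_le_right _ _
    rw [le_div_iff₀ (by positivity)] at h1
    linarith
  -- the constant
  set K1 : ℝ := (cE * (2 / (t * β))) ^ (2 * r) with hK1
  have hK10 : 0 < K1 := by positivity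
  set K2 : ℝ := (cE / (t * Real.log 2)) ^ (2 * r) with hK2
  have hl2 : (0 : ℝ) < Real.log 2 := Real.log_pos (by norm_num)
  have hK20 : 0 < K2 := by positivity
  refine ⟨2 * K1 + 1, by positivity, ?_⟩
  have e1 := floor_low hβ0 z
  have e2 := pow_log (2 * r + 1) ((2 / Real.log 2 + 2) * K2) (show (0 : ℝ) < (1 - s) / 2 by linarith)
  have e3 : ∀ᶠ X : ℕ in atTop, (1 : ℝ) ≤ Real.log X :=
    (Real.tendsto_log_atTop.comp (tendsto_natCast_atTop_atTop (R := ℝ))).eventually (eventually_ge_atTop 1)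
  obtain ⟨X₀, hX₀⟩ := eventually_atTop.1 (e1.and (e2.and (e3.and (eventually_ge_atTop 2))))
  refine ⟨X₀, ?_⟩
  intro X hX Z hZ A L hL
  obtain ⟨⟨a1, a2⟩, a3, a4, a5⟩ := hX₀ X hX
  have hX0 : (0 : ℝ) < X := by exact_mod_cast (show 0 < X by omega)
  have hX1 : (1 : ℝ) ≤ X := by exact_mod_cast (show 1 ≤ X by omega)
  set Y := ⌊(X : ℝ) ^ (1 / (t : ℝ))⌋₊ with hY
  set w := ⌊(X : ℝ) ^ β⌋₊ with hw
  have hwY : w ≤ Y := by
    apply Nat.floor_le_floor
    exact Real.rpow_le_rpow_of_exponent_le hX1 hβt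
  have hw2 : 2 ≤ w := le_trans hz2 a1
  have hzY : z ≤ Y := a1.trans hwY
  have hlY : Real.log Y ≤ 1 / t * Real.log X := by
    rw [← Real.log_rpow hX0]
    apply Real.log_le_log (by exact_mod_cast (show 0 < Y by omega))
    exact Nat.floor_le (by positivity)
  have hlw0 : 0 < Real.log w := Real.log_pos (by exact_mod_cast (show 1 < w by omega))
  have hlz : Real.log 2 ≤ Real.log z := Real.log_le_log (by norm_num) (by exact_mod_cast hz2)
  have hlX : Real.log X ≤ Real.log X + 1 := by linarith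
  have hSw : Sv r z w Z := fun p hp => hZ p (Pr_mem.2 ⟨⟨(Pr_mem.1 hp).1.1, (Pr_mem.1 hp).1.2.trans hwY⟩, (Pr_mem.1 hp).2⟩)
  have hSwY : Sv r w Y Z := fun p hp => hZ p (Pr_mem.2 ⟨⟨lt_of_le_of_lt a1 (Pr_mem.1 hp).1.1, (Pr_mem.1 hp).1.2⟩, (Pr_mem.1 hp).2⟩)
  -- the products
  have hVw : VV Z z w ≤ K1 * VV Z z Y := by
    have h1 := VV_ge (r := r) (hz.trans a1) hSwY
    have h2 : EE w Y ≤ cE * (2 / (t * β)) := by
      refine (hcE w Y hw2 hwY).trans ?_
      apply mul_le_mul_of_nonneg_left _ (by linarith)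
      rw [div_le_div_iff₀ hlw0 (by positivity)]
      calc Real.log Y * (t * β) ≤ (1 / t * Real.log X) * (t * β) := by gcongr
        _ = 2 * (β / 2 * Real.log X) := by field_simp
        _ ≤ 2 * Real.log w := by linarith
    have h3 : EE w Y ^ (2 * r) ≤ K1 := pow_le_pow_left₀ (by linarith [one_le_EE w Y]) h2 _
    have h4 : 0 < EE w Y ^ (2 * r) := by
      have := one_le_EE w Y
      positivity
    rw [div_le_iff₀ h4] at h1
    have h5 : 0 < VV Z w Y := VV_pos (hz.trans a1) hSwY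
    have h6 : 1 ≤ K1 * VV Z w Y := by
      calc (1 : ℝ) ≤ VV Z w Y * EE w Y ^ (2 * r) := h1
        _ ≤ VV Z w Y * K1 := mul_le_mul_of_nonneg_left h3 h5.le
        _ = K1 * VV Z w Y := mul_comm _ _
    rw [← VV_split Z a1 hwY]
    have h7 : 0 < VV Z z w := VV_pos hz hSw
    calc VV Z z w = VV Z z w * 1 := (mul_one _).symm
      _ ≤ VV Z z w * (K1 * VV Z w Y) := mul_le_mul_of_nonneg_left h6 h7.le
      _ = K1 * (VV Z z w * VV Z w Y) := by ring
  have hVY0 : 0 < VV Z z Y := VV_pos hz hZ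
  have hVY : 1 ≤ K2 * Real.log X ^ (2 * r) * VV Z z Y := by
    have h1 := VV_ge (r := r) hz hZ
    have h2 : EE z Y ≤ cE / (t * Real.log 2) * Real.log X := by
      refine (hcE z Y hz2 hzY).trans ?_
      rw [div_mul_eq_mul_div, mul_div_assoc]
      apply mul_le_mul_of_nonneg_left _ (by linarith)
      calc Real.log Y / Real.log z ≤ (1 / t * Real.log X) / Real.log 2 := by
            apply div_le_div₀ (by positivity) hlY hl2 hlz
        _ = Real.log X / (t * Real.log 2) := by field_simp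
    have h3 : EE z Y ^ (2 * r) ≤ K2 * Real.log X ^ (2 * r) := by
      rw [hK2, ← mul_pow]
      exact pow_le_pow_left₀ (by linarith [one_le_EE z Y]) h2 _
    have h4 : 0 < EE z Y ^ (2 * r) := by
      have := one_le_EE z Y
      positivity
    rw [div_le_iff₀ h4] at h1
    calc (1 : ℝ) ≤ VV Z z Y * EE z Y ^ (2 * r) := h1
      _ ≤ VV Z z Y * (K2 * Real.log X ^ (2 * r)) := mul_le_mul_of_nonneg_left h3 hVY0.le
      _ = _ := by ring
  -- the sieve
  have hgp : ∀ p ∈ Pr z w, 0 ≤ ((Z p).card : ℝ) / p ∧ ((Z p).card : ℝ) / p ≤ 1 / 2 ∧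
      ((Z p).card : ℝ) / p ≤ (r : ℝ) / p := by
    intro p hp
    have hp0 : (0 : ℝ) < p := by exact_mod_cast (Pr_prime hp).pos
    have h1 : ((Z p).card : ℝ) ≤ r := by exact_mod_cast (hSw p hp).1
    have h2 : (2 * r : ℝ) ≤ p := by
      have h3 : 2 * r ≤ p := hz.trans (Pr_mem.1 hp).1.1.le
      exact_mod_cast h3
    refine ⟨by positivity, ?_, by gcongr⟩
    rw [div_le_iff₀ hp0]
    linarith
  have hF := hB w hw2 (Pr z w) (fun p hp => ⟨Pr_prime hp, (Pr_mem.1 hp).1.2⟩)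
    (fun p => ((Z p).card : ℝ) / p) hgp (Ioc A (A + L)) (vZ Z z w) L (Nat.cast_nonneg L)
  -- the left-hand side
  have hlhs : (((Ioc A (A + L)).filter (fun n => ∀ q ∈ Pr z Y, n % q ∉ Z q)).card : ℝ) ≤
      (((Ioc A (A + L)).filter (fun n => ∀ p ∈ Pr z w, ¬ p ∣ vZ Z z w n)).card : ℝ) := by
    have h : (Ioc A (A + L)).filter (fun n => ∀ q ∈ Pr z Y, n % q ∉ Z q) ⊆
        (Ioc A (A + L)).filter (fun n => ∀ p ∈ Pr z w, ¬ p ∣ vZ Z z w n) := by
      intro n hn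
      rw [mem_filter] at hn ⊢
      refine ⟨hn.1, fun p hp hd => ?_⟩
      have h1 := (dvd_vZ (Pr_prime hp)).1 hd
      exact hn.2 p (Pr_mem.2 ⟨⟨(Pr_mem.1 hp).1.1, (Pr_mem.1 hp).1.2.trans hwY⟩, (Pr_mem.1 hp).2⟩) h1.2
    exact_mod_cast card_le_card h
  -- the errors
  have herr : ∑ U ∈ (Pr z w).powerset.filter (fun U => ∏ p ∈ U, p ≤ w ^ B),
      |(((Ioc A (A + L)).filter (fun n => ∀ p ∈ U, p ∣ vZ Z z w n)).card : ℝ) -
        L * ∏ p ∈ U, ((Z p).card : ℝ) / p| ≤ ((w ^ B : ℕ) : ℝ) ^ 2 := by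
    refine le_trans (sum_le_sum (g := fun U => ∏ p ∈ U, ((Z p).card : ℝ)) ?_) ?_
    · intro U hU
      rw [mem_filter, mem_powerset] at hU
      have h1 := card_classes U (fun p hp => Pr_prime (hU.1 hp)) Z (fun p hp => (hSw p (hU.1 hp)).2) A L
      have h2 : (Ioc A (A + L)).filter (fun n => ∀ p ∈ U, p ∣ vZ Z z w n) =
          (Ioc A (A + L)).filter (fun n => ∀ p ∈ U, n % p ∈ Z p) := by
        apply filter_congr
        intro n _
        constructor
        · intro h p hp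
          exact ((dvd_vZ (Pr_prime (hU.1 hp))).1 (h p hp)).2
        · intro h p hp
          exact (dvd_vZ (Pr_prime (hU.1 hp))).2 ⟨hU.1 hp, h p hp⟩
      rw [h2]
      exact h1
    · apply sumU (Pr z w) (fun p hp => Pr_prime hp) (w ^ B) (fun p => ((Z p).card : ℝ))
        (fun p _ => Nat.cast_nonneg _)
      intro p hp
      have h1 := (hSw p hp).1
      have h3 := (Pr_mem.1 hp).1.1
      have : (Z p).card ≤ p := by omega
      exact_mod_cast this
  have hwX : ((w ^ B : ℕ) : ℝ) ^ 2 ≤ (X : ℝ) ^ ((1 - s) / 2) := by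
    push_cast
    have h1 : (w : ℝ) ≤ (X : ℝ) ^ β := Nat.floor_le (by positivity)
    calc ((w : ℝ) ^ B) ^ 2 ≤ (((X : ℝ) ^ β) ^ B) ^ 2 := by gcongr
      _ = (X : ℝ) ^ (β * B * 2) := by
          rw [← pow_mul, ← Real.rpow_natCast, ← Real.rpow_mul hX0.le]
          congr 1
          push_cast
          ring
      _ ≤ (X : ℝ) ^ ((1 - s) / 2) := by
          apply Real.rpow_le_rpow_of_exponent_le hX1
          have : 0 ≤ β * B := by positivity
          linarith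
  have hlog : ((Nat.log 2 w : ℕ) : ℝ) + 2 ≤ (2 / Real.log 2 + 2) * (Real.log X + 1) := by
    have h1 : ((Nat.log 2 w : ℕ) : ℝ) * Real.log 2 ≤ Real.log w := by
      rw [← Real.log_pow]
      apply Real.log_le_log (by positivity)
      exact_mod_cast Nat.pow_log_le_self 2 (by omega : w ≠ 0)
    have h2 : Real.log w ≤ Real.log X := by
      have h3 : Real.log w ≤ β * Real.log X := by
        rw [← Real.log_rpow hX0]
        apply Real.log_le_log (by exact_mod_cast (show 0 < w by omega))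
        exact Nat.floor_le (by positivity)
      have h4 : β ≤ 1 := by
        refine hβt.trans ?_
        rw [div_le_one ht0]
        exact_mod_cast ht
      nlinarith
    have h3 : ((Nat.log 2 w : ℕ) : ℝ) ≤ Real.log X / Real.log 2 := by
      rw [le_div_iff₀ hl2]
      linarith
    have h4 : 0 ≤ Real.log X / Real.log 2 := by positivity
    calc ((Nat.log 2 w : ℕ) : ℝ) + 2 ≤ Real.log X / Real.log 2 + 2 := by linarith
      _ ≤ Real.log X / Real.log 2 + 2 + (Real.log X / Real.log 2 + 2 / Real.log 2 + 2 * Real.log X) := by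
          have : 0 ≤ Real.log X / Real.log 2 + 2 / Real.log 2 + 2 * Real.log X := by positivity
          linarith
      _ = (2 / Real.log 2 + 2) * (Real.log X + 1) := by ring
  have hfin : ((Nat.log 2 w : ℕ) + 2 : ℝ) * ((w ^ B : ℕ) : ℝ) ^ 2 ≤ L * VV Z z Y := by
    have h1 : (2 / Real.log 2 + 2) * (Real.log X + 1) * (X : ℝ) ^ ((1 - s) / 2) ≤ L * VV Z z Y := by
      have hK : (2 / Real.log 2 + 2) * K2 * (Real.log X + 1) ^ (2 * r + 1) * (X : ℝ) ^ ((1 - s) / 2) ≤ L := by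
        calc (2 / Real.log 2 + 2) * K2 * (Real.log X + 1) ^ (2 * r + 1) * (X : ℝ) ^ ((1 - s) / 2)
            ≤ (X : ℝ) ^ ((1 - s) / 2) * (X : ℝ) ^ ((1 - s) / 2) := by gcongr
          _ = (X : ℝ) ^ (1 - s) := by
              rw [← Real.rpow_add hX0]
              congr 1
              ring
          _ ≤ L := hL
      have h5 : Real.log X ^ (2 * r) ≤ (Real.log X + 1) ^ (2 * r) :=
        pow_le_pow_left₀ (by linarith) hlX _
      calc (2 / Real.log 2 + 2) * (Real.log X + 1) * (X : ℝ) ^ ((1 - s) / 2)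
          = (2 / Real.log 2 + 2) * (Real.log X + 1) * (X : ℝ) ^ ((1 - s) / 2) * 1 := by ring
        _ ≤ (2 / Real.log 2 + 2) * (Real.log X + 1) * (X : ℝ) ^ ((1 - s) / 2) *
            (K2 * Real.log X ^ (2 * r) * VV Z z Y) := by
            apply mul_le_mul_of_nonneg_left hVY (by positivity)
        _ ≤ (2 / Real.log 2 + 2) * (Real.log X + 1) * (X : ℝ) ^ ((1 - s) / 2) *
            (K2 * (Real.log X + 1) ^ (2 * r) * VV Z z Y) := by
            gcongr
        _ = ((2 / Real.log 2 + 2) * K2 * (Real.log X + 1) ^ (2 * r + 1) * (X : ℝ) ^ ((1 - s) / 2)) *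
            VV Z z Y := by ring
        _ ≤ L * VV Z z Y := mul_le_mul_of_nonneg_right hK hVY0.le
    refine le_trans ?_ h1
    apply mul_le_mul hlog hwX (by positivity) (by positivity)
  refine hlhs.trans (hF.trans ?_)
  have h8 : ∏ p ∈ Pr z w, (1 - ((Z p).card : ℝ) / p) = VV Z z w := rfl
  rw [h8]
  have h9 : ((Nat.log 2 w : ℕ) + 2 : ℝ) * ∑ U ∈ (Pr z w).powerset.filter (fun U => ∏ p ∈ U, p ≤ w ^ B),
      |(((Ioc A (A + L)).filter (fun n => ∀ p ∈ U, p ∣ vZ Z z w n)).card : ℝ) -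
        L * ∏ p ∈ U, ((Z p).card : ℝ) / p| ≤ ((Nat.log 2 w : ℕ) + 2 : ℝ) * ((w ^ B : ℕ) : ℝ) ^ 2 :=
    mul_le_mul_of_nonneg_left herr (by positivity)
  have h10 : (L : ℝ) * VV Z z w ≤ L * (K1 * VV Z z Y) := mul_le_mul_of_nonneg_left hVw (Nat.cast_nonneg L)
  calc _ ≤ 2 * (L * VV Z z w) + L * VV Z z Y := by
        apply add_le_add le_rfl
        exact h9.trans hfin
    _ ≤ 2 * (L * (K1 * VV Z z Y)) + L * VV Z z Y := by linarith
    _ = (2 * K1 + 1) * L * VV Z z Y := by ring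

end Pool.Agent.W5h22.CD
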