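import Pool.Agent.X32.CL.Top2
import Pool.Agent.W5h22.CD.A

/-!
# CD.B: Chen's theorem for `p` and `w (p + 1) + e`, inside the set of the `p` for which all `a (p + 1) ± 1`,
`a ≤ K`, have no small prime factor
-/

set_option autoImplicit false

namespace Pool.Agent.W5h22.CD

open Finset Filter
open Pool.Agent.Y843.HS (Pr VV Sv EE one_le_EE VV_ge VV_split Pr_mem Pr_prime)
open Pool.Agent.Y843.HG (Adm Z0)
open Pool.Agent.X32.CL
open Pool.Agent.Y843.CH (PNX)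

/-- the classes: `a (n + 1) + 1 ≡ 0` for `1 ≤ a ≤ K` and `a (n + 1) - 1 ≡ 0` for `2 ≤ a ≤ K` -/
noncomputable def OmK (K z q : ℕ) : Finset ℕ :=
  if q ≤ z then ∅ else ((Icc 1 K).image (fun a : ℕ => Cc (a : ℤ) ((a : ℤ) + 1) q)) ∪
    ((Icc 2 K).image (fun a : ℕ => Cc (a : ℤ) ((a : ℤ) - 1) q))

/-- the good integers -/
def GG (K z Y w : ℕ) (e : ℤ) (p : ℕ) : Prop :=
  p.Prime ∧ Mz z ∣ p + 1 ∧ (∀ q ∈ Pr z Y, p % q ∉ Z0 (OmK K z) q) ∧
    ((w : ℤ) * (p + 1) + e).natAbs.primeFactorsList.length ≤ 2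

theorem OmK_card (K z q : ℕ) : (OmK K z q).card ≤ 2 * K := by
  unfold OmK
  split_ifs
  · simp
  · refine (card_union_le _ _).trans ?_
    have h1 : ((Icc 1 K).image (fun a : ℕ => Cc (a : ℤ) ((a : ℤ) + 1) q)).card ≤ K := by
      refine card_image_le.trans ?_
      rw [Nat.card_Icc]
      omega
    have h2 : ((Icc 2 K).image (fun a : ℕ => Cc (a : ℤ) ((a : ℤ) - 1) q)).card ≤ K := by
      refine card_image_le.trans ?_
      rw [Nat.card_Icc]
      omega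
    omega

theorem not_dvd_nat {z q : ℕ} (hq : z < q) {a : ℕ} (ha : 1 ≤ a) (haz : a ≤ z) : ¬ (q : ℤ) ∣ (a : ℤ) := by
  rw [Int.natCast_dvd_natCast]
  intro h
  have := Nat.le_of_dvd (by omega) h
  omega

theorem OmK_adm {K z : ℕ} (hz : 2 * K + 5 ≤ z) (Y : ℕ) : Adm (2 * K) Y (OmK K z) := by
  intro q hq
  have hqp := Pr_prime hq
  refine ⟨OmK_card K z q, ?_, ?_, ?_⟩
  · by_cases h : q ≤ z
    · unfold OmK
      rw [if_pos h, card_empty]
      have := hqp.two_le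
      omega
    · have := OmK_card K z q
      omega
  · unfold OmK
    split_ifs with h
    · simp
    · push Not at h
      rw [mem_union, mem_image, mem_image]
      rintro (⟨a, ha, h0⟩ | ⟨a, ha, h0⟩)
      · rw [mem_Icc] at ha
        rw [Cc_zero hqp (not_dvd_nat h (by omega) (by omega))] at h0
        have h1 : ((a : ℤ) + 1).natAbs = a + 1 := by omega
        rw [h1] at h0
        have := Nat.le_of_dvd (by omega) h0
        omega
      · rw [mem_Icc] at ha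
        rw [Cc_zero hqp (not_dvd_nat h (by omega) (by omega))] at h0
        have h1 : ((a : ℤ) - 1).natAbs = a - 1 := by omega
        rw [h1] at h0
        have := Nat.le_of_dvd (by omega) h0
        omega
  · intro c hc
    unfold OmK at hc
    split_ifs at hc with h
    · simp at hc
    · rw [mem_union, mem_image, mem_image] at hc
      rcases hc with ⟨a, _, rfl⟩ | ⟨a, _, rfl⟩
      · exact Cc_lt _ _ hqp.pos
      · exact Cc_lt _ _ hqp.pos

theorem Z0_sv {K z : ℕ} (hz : 2 * K + 5 ≤ z) (Y : ℕ) : Sv (2 * K + 1) z Y (Z0 (OmK K z)) := by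
  intro q hq
  have hq' : q ∈ Pr 0 Y := Pr_mem.2 ⟨⟨(Pr_prime hq).pos, (Pr_mem.1 hq).1.2⟩, Pr_prime hq⟩
  have hA := OmK_adm hz Y
  refine ⟨?_, hA.lt hq'⟩
  rw [hA.card hq']
  have := (hA q hq').1
  omega

theorem VV_z_pos (K z : ℕ) : 0 < VV (Z0 (OmK K z)) 0 z := by
  unfold VV
  apply prod_pos
  intro q hq
  have hq1 := Pr_mem.1 hq
  have h1 : Z0 (OmK K z) q = {0} := by
    unfold Z0 OmK
    rw [if_pos hq1.1.2]
    rfl
  rw [h1, card_singleton]
  have : (2 : ℝ) ≤ q := by exact_mod_cast hq1.2.two_le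
  rw [sub_pos, div_lt_one (by linarith)]
  push_cast
  linarith

theorem Mz_two {z : ℕ} (hz : 2 ≤ z) : 2 ≤ Mz z := by
  have h1 : 2 ∣ Mz z := (Mz_prime Nat.prime_two).2 hz
  exact Nat.le_of_dvd (Mz_pos z) h1

theorem mod_neg {M p : ℕ} (hM : 0 < M) : p ≡ M - 1 [MOD M] ↔ M ∣ p + 1 := by
  constructor
  · intro h
    have h1 : p + 1 ≡ (M - 1) + 1 [MOD M] := h.add_right 1
    rw [Nat.sub_add_cancel hM] at h1
    have h2 : p + 1 ≡ 0 [MOD M] := h1.trans (by unfold Nat.ModEq; simp)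
    exact (Nat.modEq_zero_iff_dvd).1 h2
  · intro h
    have h1 : p + 1 ≡ (M - 1) + 1 [MOD M] := by
      rw [Nat.sub_add_cancel hM]
      exact ((Nat.modEq_zero_iff_dvd).2 h).trans (by unfold Nat.ModEq; simp)
    exact Nat.ModEq.add_right_cancel' 1 h1

open Classical in
/-- **the lower bound** -/
theorem lowI (K w : ℕ) (e : ℤ) (he : e = 1 ∨ (e = -1 ∧ 2 ≤ w)) (hw : 1 ≤ w) (hwK : w ≤ K) :
    ∃ z t : ℕ, 4 * K + 5 ≤ z ∧ 32 ≤ t ∧ ∃ c : ℝ, 0 < c ∧ ∀ θ : ℝ, 0 < θ → ∃ X₀ : ℕ, ∀ X : ℕ, X₀ ≤ X →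
      ∀ A B : ℕ, w * (B + 1) + 1 ≤ X → θ * X ≤ (B : ℝ) - A →
      ∃ T : Finset ℕ, (∀ p ∈ T, A < p ∧ p ≤ B ∧ GG K z ⌊(X : ℝ) ^ (1 / (t : ℝ))⌋₊ w e p) ∧
        c * ((B : ℝ) - A) * VV (Z0 (OmK K z)) z ⌊(X : ℝ) ^ (1 / (t : ℝ))⌋₊ ≤ T.card := by
  obtain ⟨z, hz1, hz2, t, ht, hC⟩ := chenL (2 * K) (4 * K + 5)
  have hwz : (w : ℤ).natAbs ≤ z := by
    rw [Int.natAbs_natCast]
    omega
  obtain ⟨c, hc, hC2⟩ := hC 1 (w : ℤ) one_pos (by exact_mod_cast (show w ≠ 0 by omega)) (by omega) hwz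
  refine ⟨z, t, hz1, ht, c * VV (Z0 (OmK K z)) 0 z, mul_pos hc (VV_z_pos K z), ?_⟩
  intro θ hθ
  obtain ⟨X₀, hX₀⟩ := hC2 θ hθ
  have e1 := floor_low (show (0 : ℝ) < 1 / (t : ℝ) by
    have : (0 : ℝ) < t := by exact_mod_cast (show 0 < t by omega)
    positivity) z
  obtain ⟨X₁, hX₁⟩ := eventually_atTop.1 e1
  refine ⟨max X₀ X₁, ?_⟩
  intro X hX A B hBX hθX
  have hX0 := hX₀ X ((le_max_left _ _).trans hX)
  have hzY : z ≤ ⌊(X : ℝ) ^ (1 / (t : ℝ))⌋₊ := (hX₁ X ((le_max_right _ _).trans hX)).1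
  set Y := ⌊(X : ℝ) ^ (1 / (t : ℝ))⌋₊ with hY
  have hA0 : (0 : ℝ) ≤ X := Nat.cast_nonneg X
  have hAB : A ≤ B := by
    have h1 : 0 ≤ θ * (X : ℝ) := by positivity
    have : (A : ℝ) ≤ B := by linarith
    exact_mod_cast this
  have hwB : (w : ℤ) * (B + 1) + 1 ≤ X := by exact_mod_cast hBX
  have hw1 : (1 : ℤ) ≤ w := by exact_mod_cast hw
  have heabs : e = 1 ∨ e = -1 := by
    rcases he with h | h
    · exact Or.inl h
    · exact Or.inr h.1
  have hMz := Mz_pos z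
  have hbd : ∀ B' : ℕ, B' ≤ B → |(w : ℤ) * B' + (w + e)| ≤ ((1 : ℕ) : ℤ) * X := by
    intro B' hB'
    have h1 : (B' : ℤ) ≤ B := by exact_mod_cast hB'
    have h2 : (w : ℤ) * B' ≤ w * B := mul_le_mul_of_nonneg_left h1 (by omega)
    have h3 : 0 ≤ (w : ℤ) * B' := by positivity
    rw [abs_le]
    push_cast
    rcases heabs with rfl | rfl <;> constructor <;> nlinarith
  have hCL : CLd (2 * K) z Y X 1 (w : ℤ) ((w : ℤ) + e) (Mz z - 1) A B (OmK K z) :=
    { BX := by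
        have h1 : B + 1 ≤ w * (B + 1) := Nat.le_mul_of_pos_left _ (by omega)
        omega
      tA := hbd A hAB
      tB := hbd B le_rfl
      H0 := by
        rcases he with rfl | ⟨rfl, h2⟩
        · omega
        · omega
      adm := OmK_adm (by omega) Y
      hm := by
        intro q hq
        have hq1 := Pr_mem.1 hq
        unfold Z0 OmK
        rw [if_neg (by omega), mem_insert, mem_union, mem_image, mem_image]
        rcases he with rfl | ⟨rfl, h2⟩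
        · exact Or.inr (Or.inl ⟨w, mem_Icc.2 ⟨hw, hwK⟩, rfl⟩)
        · exact Or.inr (Or.inr ⟨w, mem_Icc.2 ⟨h2, hwK⟩, rfl⟩)
      cop := by
        rw [one_mul]
        have h1 : Nat.Coprime (Mz z - 1) (Mz z - 1 + 1) := by simp
        rwa [Nat.sub_add_cancel hMz] at h1
      ua := by simp
      aq := by
        intro q hq hd
        have hq1 := Pr_mem.1 hq
        have hqM : (q : ℤ) ∣ (Mz z : ℤ) := by exact_mod_cast (Mz_prime hq1.2).2 hq1.1.2
        have h1 : (((Mz z - 1 : ℕ)) : ℤ) = (Mz z : ℤ) - 1 := by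
          push_cast [Nat.cast_sub hMz]
          ring
        rw [h1, one_mul] at hd
        have h2 : (w : ℤ) * ((Mz z : ℤ) - 1) + (w + e) = w * Mz z + e := by ring
        rw [h2] at hd
        have h3 : (q : ℤ) ∣ e := (dvd_add_right (hqM.mul_left _)).1 hd
        have h4 : (q : ℤ) ∣ 1 := by
          rcases heabs with rfl | rfl
          · exact h3
          · exact (dvd_neg).1 h3
        have h5 : (q : ℤ) ≤ 1 := Int.le_of_dvd one_pos h4
        have := hq1.2.two_le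
        omega }
  have hmain := hX0 ((w : ℤ) + e) (Mz z - 1) A B (OmK K z) hCL hθX
  refine ⟨_, ?_, le_trans (le_of_eq ?_) hmain⟩
  · intro p hp
    unfold GD2 PNX at hp
    rw [mem_filter, mem_filter, mem_Ioc] at hp
    obtain ⟨⟨⟨h1, h2⟩, h3⟩, h4, h5, h6, h7, _⟩ := hp
    refine ⟨lt_of_le_of_lt (le_max_left _ _) h1, h2, h3, ?_, h5, ?_⟩
    · rw [one_mul] at h4
      exact (mod_neg hMz).1 h4
    · have h8 : fv 1 (w : ℤ) ((w : ℤ) + e) p = ((w : ℤ) * (p + 1) + e).natAbs := by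
        unfold fv
        rw [Nat.cast_one, Int.ediv_one]
        congr 1
        ring
      rwa [h8] at h7
  · rw [← VV_split (Z0 (OmK K z)) (Nat.zero_le z) hzY]
    ring

/-- what a good integer gives -/
theorem GG.free {K z Y w : ℕ} {e : ℤ} {p : ℕ} (hz : 2 * K + 5 ≤ z) (h : GG K z Y w e p) {a q : ℕ} (ha : 1 ≤ a)
    (haK : a ≤ K) (hq : q.Prime) (hd : q ∣ a * (p + 1) + 1 ∨ (2 ≤ a ∧ q ∣ a * (p + 1) - 1)) : Y < q := by
  by_contra hcon
  push Not at hcon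
  obtain ⟨h1, h2, h3, _⟩ := h
  rcases Nat.lt_or_ge z q with hzq | hzq
  · have hnot := h3 q (Pr_mem.2 ⟨⟨hzq, hcon⟩, hq⟩)
    apply hnot
    have hcop := cop_of hq (not_dvd_nat hzq ha (by omega))
    unfold Z0 OmK
    rw [if_neg (by omega), mem_insert, mem_union, mem_image, mem_image]
    rcases hd with hd | ⟨ha2, hd⟩
    · refine Or.inr (Or.inl ⟨a, mem_Icc.2 ⟨ha, haK⟩, ?_⟩)
      symm
      rw [Cc_iff _ _ hq.pos hcop]
      have h4 : ((q : ℕ) : ℤ) ∣ ((a * (p + 1) + 1 : ℕ) : ℤ) := by exact_mod_cast hd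
      push_cast at h4
      have h5 : (a : ℤ) * p + (a + 1) = a * (p + 1) + 1 := by ring
      rw [h5]
      exact h4
    · refine Or.inr (Or.inr ⟨a, mem_Icc.2 ⟨ha2, haK⟩, ?_⟩)
      symm
      rw [Cc_iff _ _ hq.pos hcop]
      have h4 : ((q : ℕ) : ℤ) ∣ ((a * (p + 1) - 1 : ℕ) : ℤ) := by exact_mod_cast hd
      have h6 : 1 ≤ a * (p + 1) := Nat.mul_pos (by omega) (by omega)
      rw [Nat.cast_sub h6] at h4
      push_cast at h4
      have h5 : (a : ℤ) * p + (a - 1) = a * (p + 1) - 1 := by ring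
      rw [h5]
      exact h4
  · have h4 : q ∣ p + 1 := ((Mz_prime hq).2 hzq).trans h2
    have h6 : 1 ≤ a * (p + 1) := Nat.mul_pos (by omega) (by omega)
    have h7 : q ∣ 1 := by
      rcases hd with hd | ⟨_, hd⟩
      · exact (Nat.dvd_add_right (h4.mul_left a)).1 hd
      · have h8 : q ∣ a * (p + 1) - (a * (p + 1) - 1) := Nat.dvd_sub (h4.mul_left a) hd
        have h9 : a * (p + 1) - (a * (p + 1) - 1) = 1 := by omega
        rwa [h9] at h8
    have := Nat.le_of_dvd one_pos h7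
    have := hq.two_le
    omega

end Pool.Agent.W5h22.CD
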