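import Pool.Agent.W5h22.CD.B

/-!
# CD.C: the bounds at the scale `x`, and the measure of the neighbourhoods of the good points
-/

set_option autoImplicit false

namespace Pool.Agent.W5h22.CD

open Finset Filter MeasureTheory
open Pool.Agent.Y843.HS (Pr VV Sv EE one_le_EE VV_ge VV_split Pr_mem Pr_prime)
open Pool.Agent.Y843.HG (Adm Z0)
open Pool.Agent.X32.CL

/-- the sifting limit at the scale `x` -/
noncomputable def Yx (W : ℝ) (t : ℕ) (x : ℝ) : ℕ := ⌊((⌊W * x⌋₊ : ℕ) : ℝ) ^ (1 / (t : ℝ))⌋₊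

theorem X_low (W : ℝ) (hW : 1 ≤ W) (n : ℕ) (x : ℝ) (hx : (n : ℝ) + 1 ≤ x) : n ≤ ⌊W * x⌋₊ := by
  apply Nat.le_floor
  have : (0 : ℝ) ≤ n := Nat.cast_nonneg n
  nlinarith

/-- the bounds at the scale `x`, for the windows of `(0, M]` -/
theorem scale (K w : ℕ) (e : ℤ) (he : e = 1 ∨ (e = -1 ∧ 2 ≤ w)) (hw : 1 ≤ w) (hwK : w ≤ K) :
    ∃ z t : ℕ, 4 * K + 5 ≤ z ∧ 32 ≤ t ∧ ∀ M : ℝ, 0 < M →
      (∃ c : ℝ, 0 < c ∧ ∀ a b : ℝ, 0 ≤ a → a < b → b ≤ M → ∃ x₀ : ℝ, ∀ x : ℝ, x₀ ≤ x →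
        ∃ T : Finset ℕ, (∀ p ∈ T, a * x < (p : ℝ) ∧ (p : ℝ) ≤ b * x ∧ GG K z (Yx (w * M + 1) t x) w e p) ∧
          c * (b - a) * x * VV (Z0 (OmK K z)) z (Yx (w * M + 1) t x) ≤ T.card) ∧
      (∀ s : ℝ, 0 < s → s < 1 → ∃ C : ℝ, 0 < C ∧ ∃ x₀ : ℝ, ∀ x : ℝ, x₀ ≤ x → ∀ A L : ℕ,
        x ^ (1 - s) ≤ L → ∀ T : Finset ℕ, (∀ p ∈ T, A < p ∧ p ≤ A + L ∧ GG K z (Yx (w * M + 1) t x) w e p) →
          (T.card : ℝ) ≤ C * L * VV (Z0 (OmK K z)) z (Yx (w * M + 1) t x)) := by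
  classical
  obtain ⟨z, t, hz, ht, c, hc, hL⟩ := lowI K w e he hw hwK
  refine ⟨z, t, by omega, ht, ?_⟩
  intro M hM
  have hwr : (1 : ℝ) ≤ w := by exact_mod_cast hw
  set W : ℝ := w * M + 1 with hW
  have hW1 : 1 ≤ W := by
    rw [hW]
    have : 0 ≤ (w : ℝ) * M := by positivity
    linarith
  have hVn : ∀ Y : ℕ, 0 < VV (Z0 (OmK K z)) z Y := fun Y => VV_pos (r := 2 * K + 1) (by omega) (Z0_sv (by omega) Y)
  constructor
  · refine ⟨c / 2, by positivity, ?_⟩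
    intro a b ha hab hbM
    obtain ⟨X₀, hX₀⟩ := hL ((b - a) / (2 * W)) (by
      apply div_pos (by linarith) (by linarith))
    refine ⟨max ((X₀ : ℝ) + 1) (max ((w : ℝ) + 2) (2 / (b - a))), ?_⟩
    intro x hx
    have hx1 : (X₀ : ℝ) + 1 ≤ x := (le_max_left _ _).trans hx
    have hx2 : (w : ℝ) + 2 ≤ x := ((le_max_left _ _).trans (le_max_right _ _)).trans hx
    have hx3 : 2 / (b - a) ≤ x := ((le_max_right _ _).trans (le_max_right _ _)).trans hx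
    have hx0 : 0 < x := by linarith
    rw [div_le_iff₀ (by linarith)] at hx3
    have hb0 : 0 ≤ b * x := by
      have : 0 ≤ b := by linarith
      positivity
    have hA1 : ((⌊a * x⌋₊ : ℕ) : ℝ) ≤ a * x := Nat.floor_le (by positivity)
    have hA2 := Nat.lt_floor_add_one (a * x)
    have hB1 : ((⌊b * x⌋₊ : ℕ) : ℝ) ≤ b * x := Nat.floor_le hb0
    have hB2 := Nat.lt_floor_add_one (b * x)
    have hX1 : ((⌊W * x⌋₊ : ℕ) : ℝ) ≤ W * x := Nat.floor_le (by positivity)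
    have hX2 := Nat.lt_floor_add_one (W * x)
    have hbx : b * x ≤ M * x := mul_le_mul_of_nonneg_right hbM hx0.le
    have hBA : (b - a) * x / 2 ≤ ((⌊b * x⌋₊ : ℕ) : ℝ) - ((⌊a * x⌋₊ : ℕ) : ℝ) := by linarith
    obtain ⟨T, hT1, hT2⟩ := hX₀ ⌊W * x⌋₊ (X_low W hW1 X₀ x hx1) ⌊a * x⌋₊ ⌊b * x⌋₊ (by
      have h1 : ((w * (⌊b * x⌋₊ + 1) + 1 : ℕ) : ℝ) < ((⌊W * x⌋₊ : ℕ) : ℝ) + 1 := by
        push_cast
        have h2 : (w : ℝ) * ((⌊b * x⌋₊ : ℕ) : ℝ) ≤ w * (M * x) :=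
          mul_le_mul_of_nonneg_left (hB1.trans hbx) (by linarith)
        rw [hW] at hX2 ⊢
        nlinarith
      have h3 : w * (⌊b * x⌋₊ + 1) + 1 < ⌊W * x⌋₊ + 1 := by exact_mod_cast h1
      omega) (by
      refine le_trans ?_ hBA
      have h1 : (b - a) / (2 * W) * ((⌊W * x⌋₊ : ℕ) : ℝ) ≤ (b - a) / (2 * W) * (W * x) := by
        apply mul_le_mul_of_nonneg_left hX1
        apply div_nonneg (by linarith) (by linarith)
      refine h1.trans (le_of_eq ?_)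
      field_simp)
    refine ⟨T, ?_, ?_⟩
    · intro p hp
      obtain ⟨h1, h2, h3⟩ := hT1 p hp
      refine ⟨?_, ?_, h3⟩
      · have : ((⌊a * x⌋₊ : ℕ) : ℝ) + 1 ≤ p := by exact_mod_cast h1
        linarith
      · have : (p : ℝ) ≤ ((⌊b * x⌋₊ : ℕ) : ℝ) := by exact_mod_cast h2
        linarith
    · refine le_trans ?_ hT2
      apply mul_le_mul_of_nonneg_right _ (hVn _).le
      calc c / 2 * (b - a) * x = c * ((b - a) * x / 2) := by ring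
        _ ≤ _ := mul_le_mul_of_nonneg_left hBA hc.le
  · intro s hs hs1
    obtain ⟨C, hC, X₀, hX₀⟩ := upI (2 * K + 1) z t (by omega) (by omega) (by omega) (by omega)
      (s := (1 + s) / 2) (by linarith) (by linarith)
    refine ⟨C, hC, max ((X₀ : ℝ) + 1) (max W 1), ?_⟩
    intro x hx A L hxL T hT
    have hx1 : (X₀ : ℝ) + 1 ≤ x := (le_max_left _ _).trans hx
    have hx2 : W ≤ x := ((le_max_left _ _).trans (le_max_right _ _)).trans hx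
    have hx3 : 1 ≤ x := ((le_max_right _ _).trans (le_max_right _ _)).trans hx
    have hx0 : 0 < x := by linarith
    have h1 : ((⌊W * x⌋₊ : ℕ) : ℝ) ^ (1 - (1 + s) / 2) ≤ L := by
      refine le_trans ?_ hxL
      have h2 : ((⌊W * x⌋₊ : ℕ) : ℝ) ≤ x * x := by
        refine (Nat.floor_le (by positivity)).trans ?_
        exact mul_le_mul_of_nonneg_right hx2 hx0.le
      calc ((⌊W * x⌋₊ : ℕ) : ℝ) ^ (1 - (1 + s) / 2) ≤ (x * x) ^ (1 - (1 + s) / 2) := by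
            apply Real.rpow_le_rpow (Nat.cast_nonneg _) h2
            linarith
        _ = x ^ (1 - s) := by
            rw [Real.mul_rpow hx0.le hx0.le, ← Real.rpow_add hx0]
            congr 1
            ring
    have h2 := hX₀ ⌊W * x⌋₊ (X_low W hW1 X₀ x hx1) (Z0 (OmK K z)) (Z0_sv (by omega) _) A L h1
    refine le_trans ?_ h2
    have h3 : T ⊆ (Ioc A (A + L)).filter (fun n => ∀ q ∈ Pr z ⌊((⌊W * x⌋₊ : ℕ) : ℝ) ^ (1 / (t : ℝ))⌋₊,
        n % q ∉ Z0 (OmK K z) q) := by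
      intro p hp
      obtain ⟨h4, h5, h6⟩ := hT p hp
      rw [mem_filter, mem_Ioc]
      exact ⟨⟨h4, h5⟩, h6.2.2.1⟩
    exact_mod_cast card_le_card h3

end Pool.Agent.W5h22.CD
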