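import Mathlib

/-!
# CD.D: the measure of the neighbourhoods of the good points
-/

set_option autoImplicit false

namespace Pool.Agent.W5h22.CD

open Finset Filter MeasureTheory

/-- Lebesgue density -/
theorem null_real (S : Set ℝ) (hS : S ⊆ Set.Ioi 0) (η : ℝ) (hη : 0 < η)
    (h : ∀ s t : ℝ, 0 < s → s < t → t ≤ 3 / 2 * s → ∃ G : Set ℝ, MeasurableSet G ∧ G ⊆ Set.Icc s t ∧ (∀ x ∈ G, x ∉ S) ∧
      η * (t - s) ≤ volume.real G) : volume S = 0 := by
  have hball : ∀ (x r : ℝ), 0 < r → r ≤ x / 5 →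
      volume (S ∩ Metric.closedBall x r) / volume (Metric.closedBall x r) ≤ ENNReal.ofReal (1 - η) := by
    intro x r hr hrx
    obtain ⟨G, hGm, hGsub, hGS, hGvol⟩ := h (x - r) (x + r) (by linarith) (by linarith) (by linarith)
    rw [Real.closedBall_eq_Icc]
    have hvol : volume (Set.Icc (x - r) (x + r)) = ENNReal.ofReal (2 * r) := by
      rw [Real.volume_Icc]; congr 1; ring
    have hfin : volume (Set.Icc (x - r) (x + r)) ≠ ⊤ := by rw [hvol]; exact ENNReal.ofReal_ne_top
    have hsub : S ∩ Set.Icc (x - r) (x + r) ⊆ Set.Icc (x - r) (x + r) \ G := by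
      rintro z ⟨hz1, hz2⟩
      exact ⟨hz2, fun hzG => hGS z hzG hz1⟩
    have hfinG : volume G ≠ ⊤ := ne_top_of_le_ne_top hfin (measure_mono hGsub)
    have e0 : x + r - (x - r) = 2 * r := by ring
    rw [e0] at hGvol
    have h1 : volume (S ∩ Set.Icc (x - r) (x + r)) ≤ ENNReal.ofReal (2 * r - η * (2 * r)) := by
      refine (measure_mono hsub).trans ?_
      rw [measure_sdiff hGsub hGm.nullMeasurableSet hfinG, hvol, ENNReal.ofReal_sub _ (by positivity)]
      apply tsub_le_tsub_left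
      exact ENNReal.ofReal_le_of_le_toReal hGvol
    rw [hvol]
    apply ENNReal.div_le_of_le_mul
    refine h1.trans ?_
    rw [← ENNReal.ofReal_mul' (by positivity)]
    apply ENNReal.ofReal_le_ofReal
    rw [sub_mul, one_mul]
  have hlim := Besicovitch.ae_tendsto_measure_inter_div (volume : Measure ℝ) S
  have hpos : ∀ᵐ x ∂(volume.restrict S), x ∈ Set.Ioi (0 : ℝ) :=
    ae_restrict_of_ae_restrict_of_subset hS (ae_restrict_mem measurableSet_Ioi)
  have hfalse : ∀ᵐ x ∂(volume.restrict S), False := by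
    filter_upwards [hlim, hpos] with x hx hx0
    rw [Set.mem_Ioi] at hx0
    have h1 : ∀ᶠ r : ℝ in nhdsWithin 0 (Set.Ioi 0),
        volume (S ∩ Metric.closedBall x r) / volume (Metric.closedBall x r) ≤ ENNReal.ofReal (1 - η) := by
      filter_upwards [self_mem_nhdsWithin, Ioo_mem_nhdsGT (show (0 : ℝ) < x / 5 by positivity)] with r hr hr2
      exact hball x r hr hr2.2.le
    have h2 := le_of_tendsto hx h1
    have h3 : ENNReal.ofReal (1 - η) < 1 := by
      rw [ENNReal.ofReal_lt_one]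
      linarith
    exact absurd h3 (not_lt.2 h2)
  have h0 : volume.restrict S = 0 := by
    rw [Filter.eventually_false_iff_eq_bot, ae_eq_bot] at hfalse
    exact hfalse
  exact Measure.restrict_eq_zero.1 h0

open Classical in
theorem vol_union (T : Finset ℕ) (I : ℕ → Set ℝ) (hm : ∀ p, MeasurableSet (I p)) (hf : ∀ p, volume (I p) ≠ ⊤)
    (N : ℝ) (hN : ∀ x : ℝ, ((T.filter (fun p => x ∈ I p)).card : ℝ) ≤ N) :
    ∑ p ∈ T, volume.real (I p) ≤ N * volume.real (⋃ p ∈ T, I p) := by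
  have hN0 : 0 ≤ N := le_trans (Nat.cast_nonneg _) (hN 0)
  have hmU : MeasurableSet (⋃ p ∈ T, I p) := Finset.measurableSet_biUnion T fun p _ => hm p
  have hfU : volume (⋃ p ∈ T, I p) ≠ ⊤ := by
    refine ne_top_of_le_ne_top ?_ (measure_biUnion_finset_le T I)
    exact (ENNReal.sum_lt_top.2 fun p _ => (hf p).lt_top).ne
  have hint : ∀ p ∈ T, Integrable ((I p).indicator (fun _ => (1 : ℝ))) volume := fun p _ =>
    (integrable_indicator_iff (hm p)).2 (integrableOn_const (hf p))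
  have hintU : Integrable ((⋃ p ∈ T, I p).indicator (fun _ => N)) volume :=
    (integrable_indicator_iff hmU).2 (integrableOn_const hfU)
  have h1 : ∫ x, (∑ p ∈ T, (I p).indicator (fun _ => (1 : ℝ)) x) = ∑ p ∈ T, volume.real (I p) := by
    rw [integral_finsetSum T hint]
    apply sum_congr rfl
    intro p _
    rw [integral_indicator (hm p), setIntegral_const, smul_eq_mul, mul_one]
  have h2 : ∫ x, (⋃ p ∈ T, I p).indicator (fun _ => N) x = N * volume.real (⋃ p ∈ T, I p) := by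
    rw [integral_indicator hmU, setIntegral_const, smul_eq_mul, mul_comm]
  rw [← h1, ← h2]
  apply integral_mono (integrable_finsetSum T hint) hintU
  intro x
  show ∑ p ∈ T, (I p).indicator (fun _ => (1 : ℝ)) x ≤ (⋃ p ∈ T, I p).indicator (fun _ => N) x
  have h3 : ∑ p ∈ T, (I p).indicator (fun _ => (1 : ℝ)) x = ((T.filter (fun p => x ∈ I p)).card : ℝ) := by
    rw [card_filter]
    push_cast
    apply sum_congr rfl
    intro p _
    rw [Set.indicator_apply]
  rw [h3]
  by_cases hx : x ∈ ⋃ p ∈ T, I p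
  · rw [Set.indicator_of_mem hx]
    exact hN x
  · rw [Set.indicator_of_notMem hx]
    have h4 : T.filter (fun p => x ∈ I p) = ∅ := by
      rw [filter_eq_empty_iff]
      intro p hp hxp
      exact hx (Set.mem_biUnion hp hxp)
    rw [h4]
    simp

open Classical in
/-- a positive proportion of every interval is near the good points -/
theorem near {P : ℝ → ℕ → Prop} {V : ℝ → ℝ} (hV : ∀ x, 0 < V x) {M c : ℝ} (hc : 0 < c)
    (hLo : ∀ a b : ℝ, 0 ≤ a → a < b → b ≤ M → ∃ x₀ : ℝ, ∀ x : ℝ, x₀ ≤ x → ∃ T : Finset ℕ,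
      (∀ p ∈ T, a * x < (p : ℝ) ∧ (p : ℝ) ≤ b * x ∧ P x p) ∧ c * (b - a) * x * V x ≤ T.card)
    {s : ℝ} (hs : 0 < s) (hs1 : s < 1) {C x₁ : ℝ} (hC : 0 < C)
    (hUp : ∀ x : ℝ, x₁ ≤ x → ∀ A L : ℕ, x ^ (1 - s) ≤ L → ∀ T : Finset ℕ,
      (∀ p ∈ T, A < p ∧ p ≤ A + L ∧ P x p) → (T.card : ℝ) ≤ C * L * V x) :
    ∃ η : ℝ, 0 < η ∧ ∀ a b : ℝ, 0 ≤ a → a < b → b ≤ M → ∃ x₀ : ℝ, ∀ x : ℝ, x₀ ≤ x →
      ∃ G : Set ℝ, MeasurableSet G ∧ G ⊆ Set.Icc a b ∧ (∀ y ∈ G, ∃ p : ℕ, P x p ∧ |y - p / x| < x ^ (-s)) ∧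
        η * (b - a) ≤ volume.real G := by
  refine ⟨c / (6 * C), by positivity, ?_⟩
  intro a b ha hab hbM
  obtain ⟨x₀, hx₀⟩ := hLo (a + (b - a) / 4) (b - (b - a) / 4) (by linarith) (by linarith) (by linarith)
  have e1 : ∀ᶠ x : ℝ in atTop, x ^ (-s) ≤ (b - a) / 4 := by
    have h := (tendsto_rpow_neg_atTop hs).eventually (ge_mem_nhds (show (0 : ℝ) < (b - a) / 4 by linarith))
    exact h
  obtain ⟨x₂, hx₂⟩ := eventually_atTop.1 e1
  refine ⟨max (max x₀ x₁) (max x₂ 1), ?_⟩
  intro x hx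
  obtain ⟨T, hT1, hT2⟩ := hx₀ x (((le_max_left _ _).trans (le_max_left _ _)).trans hx)
  have hU := hUp x (((le_max_right _ _).trans (le_max_left _ _)).trans hx)
  have hsm := hx₂ x (((le_max_left _ _).trans (le_max_right _ _)).trans hx)
  have hx1 : 1 ≤ x := ((le_max_right _ _).trans (le_max_right _ _)).trans hx
  have hx0 : 0 < x := by linarith
  have hxs : 0 < x ^ (-s) := Real.rpow_pos_of_pos hx0 _
  have hx1s : 1 ≤ x ^ (1 - s) := Real.one_le_rpow hx1 (by linarith)
  have hmul : x * x ^ (-s) = x ^ (1 - s) := by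
    nth_rewrite 1 [← Real.rpow_one x]
    rw [← Real.rpow_add hx0]
    rfl
  set I : ℕ → Set ℝ := fun p => Set.Ioo ((p : ℝ) / x - x ^ (-s) / 2) ((p : ℝ) / x + x ^ (-s) / 2) with hI
  have hvI : ∀ p, volume (I p) = ENNReal.ofReal (x ^ (-s)) := by
    intro p
    rw [hI, Real.volume_Ioo]
    congr 1
    ring
  have hmem : ∀ (y : ℝ) (p : ℕ), y ∈ I p ↔ |y - p / x| < x ^ (-s) / 2 := by
    intro y p
    rw [hI, Set.mem_Ioo, abs_lt]
    constructor
    · rintro ⟨h1, h2⟩
      constructor <;> linarith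
    · rintro ⟨h1, h2⟩
      constructor <;> linarith
  have hcount : ∀ y : ℝ, ((T.filter (fun p => y ∈ I p)).card : ℝ) ≤ 3 * C * x ^ (1 - s) * V x := by
    intro y
    set A := ⌊y * x - x ^ (1 - s) / 2⌋₊ with hA
    set L := ⌈x ^ (1 - s)⌉₊ + 1 with hL
    have hL1 : x ^ (1 - s) ≤ (L : ℝ) := by
      rw [hL]
      push_cast
      have := Nat.le_ceil (x ^ (1 - s))
      linarith
    have hL2 : (L : ℝ) ≤ 3 * x ^ (1 - s) := by
      rw [hL]
      push_cast
      have := Nat.ceil_lt_add_one (show 0 ≤ x ^ (1 - s) by linarith)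
      linarith
    have h1 := hU A L hL1 (T.filter (fun p => y ∈ I p)) (by
      intro p hp
      rw [mem_filter, hmem] at hp
      obtain ⟨h2, h3, h4⟩ := hT1 p hp.1
      have hp0 : (0 : ℝ) < p := by
        have : 0 < (a + (b - a) / 4) * x := by
          apply mul_pos _ hx0
          linarith
        linarith
      have h5 := hp.2
      rw [abs_lt] at h5
      have h6 : (y - p / x) * x = y * x - p := by
        field_simp
      have h7 : (y - p / x) * x < x ^ (-s) / 2 * x := mul_lt_mul_of_pos_right h5.2 hx0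
      have h8 : -(x ^ (-s) / 2) * x < (y - p / x) * x := mul_lt_mul_of_pos_right h5.1 hx0
      rw [h6] at h7 h8
      have h9 : x ^ (-s) / 2 * x = x ^ (1 - s) / 2 := by rw [← hmul]; ring
      have h10 : -(x ^ (-s) / 2) * x = -(x ^ (1 - s) / 2) := by rw [← hmul]; ring
      rw [h9] at h7
      rw [h10] at h8
      have h11 := Nat.lt_floor_add_one (y * x - x ^ (1 - s) / 2)
      rw [← hA] at h11
      refine ⟨?_, ?_, h4⟩
      · rcases le_or_gt 0 (y * x - x ^ (1 - s) / 2) with h | h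
        · have h12 : (A : ℝ) ≤ y * x - x ^ (1 - s) / 2 := Nat.floor_le h
          have h13 : (A : ℝ) < p := by linarith
          exact_mod_cast h13
        · have h12 : A = 0 := Nat.floor_of_nonpos h.le
          rw [h12]
          exact_mod_cast hp0
      · have h13 : (p : ℝ) ≤ ((A + L : ℕ) : ℝ) := by
          rw [hL]
          push_cast
          have := Nat.le_ceil (x ^ (1 - s))
          linarith
        exact_mod_cast h13)
    refine h1.trans ?_
    have := (hV x).le
    calc C * L * V x ≤ C * (3 * x ^ (1 - s)) * V x := by gcongr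
      _ = _ := by ring
  have hvu := vol_union T I (fun p => measurableSet_Ioo) (fun p => by rw [hvI]; exact ENNReal.ofReal_ne_top)
    (3 * C * x ^ (1 - s) * V x) (fun y => by convert hcount y)
  refine ⟨⋃ p ∈ T, I p, Finset.measurableSet_biUnion T fun p _ => measurableSet_Ioo, ?_, ?_, ?_⟩
  · intro y hy
    rw [Set.mem_iUnion₂] at hy
    obtain ⟨p, hp, hyp⟩ := hy
    rw [hmem, abs_lt] at hyp
    obtain ⟨h2, h3, _⟩ := hT1 p hp
    rw [← lt_div_iff₀ hx0] at h2
    rw [← div_le_iff₀ hx0] at h3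
    constructor <;> linarith [hyp.1, hyp.2]
  · intro y hy
    rw [Set.mem_iUnion₂] at hy
    obtain ⟨p, hp, hyp⟩ := hy
    rw [hmem] at hyp
    exact ⟨p, (hT1 p hp).2.2, by linarith⟩
  · have h1 : ∑ p ∈ T, volume.real (I p) = T.card * x ^ (-s) := by
      have h2 : ∀ p ∈ T, volume.real (I p) = x ^ (-s) := by
        intro p _
        rw [Measure.real, hvI, ENNReal.toReal_ofReal hxs.le]
      rw [sum_congr rfl h2, sum_const, nsmul_eq_mul]
    rw [h1] at hvu
    have h3 : c * (b - a) / 2 * x ^ (1 - s) * V x ≤ T.card * x ^ (-s) := by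
      calc c * (b - a) / 2 * x ^ (1 - s) * V x = c * (b - (b - a) / 4 - (a + (b - a) / 4)) * x * V x * x ^ (-s) := by
            rw [← hmul]; ring
        _ ≤ T.card * x ^ (-s) := mul_le_mul_of_nonneg_right hT2 hxs.le
    have h4 : c * (b - a) / 2 * (x ^ (1 - s) * V x) ≤
        3 * C * volume.real (⋃ p ∈ T, I p) * (x ^ (1 - s) * V x) := by
      calc _ = c * (b - a) / 2 * x ^ (1 - s) * V x := by ring
        _ ≤ _ := h3.trans hvu
        _ = _ := by ring
    have h5 : 0 < x ^ (1 - s) * V x := mul_pos (by linarith) (hV x)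
    have h6 := le_of_mul_le_mul_right h4 h5
    rw [div_mul_eq_mul_div, div_le_iff₀ (by positivity)]
    linarith

end Pool.Agent.W5h22.CD
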