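import Pool.Agent.W5h22.CD.C
import Pool.Agent.W5h22.CD.E

/-!
# CD.F: the good primes of almost prime constellations, and the two theorems
-/

set_option autoImplicit false

namespace Pool.Agent.W5h22.CD

open Filter MeasureTheory
open Pool.Agent.Y843.HS (Pr VV Pr_mem Pr_prime)
open Pool.Agent.Y843.HG (Z0)

/-- `p` is a prime, `w (p + 1) + e` has at most two prime factors, and no prime `q ≤ p ^ δ` divides one of the
numbers `a (p + 1) - 1`, `a (p + 1) + 1`, `1 ≤ a ≤ K` -/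
def Core (δ : ℝ) (K w : ℕ) (e : ℤ) (p : ℕ) : Prop :=
  p.Prime ∧ ((w : ℤ) * (p + 1) + e).natAbs.primeFactorsList.length ≤ 2 ∧
    ∀ a q : ℕ, 1 ≤ a → a ≤ K → q.Prime → (q ∣ a * (p + 1) - 1 ∨ q ∣ a * (p + 1) + 1) → (p : ℝ) ^ δ < q

/-- the properties of the good primes that are used -/
theorem core (K w : ℕ) (e : ℤ) (he : e = 1 ∨ (e = -1 ∧ 2 ≤ w)) (hw : 1 ≤ w) (hwK : w ≤ K) :
    ∃ δ : ℝ, 0 < δ ∧ ∀ M : ℝ, 0 < M → ∃ P : ℝ → ℕ → Prop, (∀ x p, P x p → Core δ K w e p) ∧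
      (∀ a b : ℝ, 0 ≤ a → a < b → b ≤ M → ∃ x₀ : ℝ, ∀ x : ℝ, x₀ ≤ x →
        ∃ p : ℕ, a * x < p ∧ (p : ℝ) ≤ b * x ∧ P x p) ∧
      ∀ s : ℝ, 0 < s → s < 1 → ∃ η : ℝ, 0 < η ∧ ∀ a b : ℝ, 0 ≤ a → a < b → b ≤ M →
        ∃ x₀ : ℝ, ∀ x : ℝ, x₀ ≤ x →
        ∃ G : Set ℝ, MeasurableSet G ∧ G ⊆ Set.Icc a b ∧ (∀ y ∈ G, ∃ p : ℕ, P x p ∧ |y - p / x| < x ^ (-s)) ∧
          η * (b - a) ≤ volume.real G := by
  obtain ⟨z, t, hz, ht, hS⟩ := scale K w e he hw hwK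
  have ht0 : (0 : ℝ) < t := by exact_mod_cast (show 0 < t by omega)
  refine ⟨1 / (t : ℝ), by positivity, ?_⟩
  intro M hM
  obtain ⟨⟨c, hc, hLo⟩, hUp⟩ := hS M hM
  have hV : ∀ x : ℝ, 0 < VV (Z0 (OmK K z)) z (Yx (w * M + 1) t x) := fun x =>
    VV_pos (r := 2 * K + 1) (by omega) (Z0_sv (by omega) _)
  have hwr : (1 : ℝ) ≤ w := by exact_mod_cast hw
  refine ⟨fun x p => (p : ℝ) ≤ M * x ∧ GG K z (Yx (w * M + 1) t x) w e p, ?_, ?_, ?_⟩
  · rintro x p ⟨hpM, hG⟩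
    refine ⟨hG.1, hG.2.2.2, ?_⟩
    intro a q ha haK hq hd
    have hp2 : (2 : ℝ) ≤ p := by exact_mod_cast hG.1.two_le
    have hx0 : 0 ≤ x := by
      by_contra hcon
      push Not at hcon
      have := mul_neg_of_pos_of_neg hM hcon
      linarith
    -- the case of a large prime
    have hlarge : Yx (w * M + 1) t x < q → (p : ℝ) ^ (1 / (t : ℝ)) < q := by
      intro h
      have h1 : p ≤ ⌊(w * M + 1) * x⌋₊ := by
        apply Nat.le_floor
        have : M * x ≤ w * M * x := by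
          have h2 : 0 ≤ M * x := by positivity
          nlinarith
        linarith
      have h2 : (p : ℝ) ^ (1 / (t : ℝ)) ≤ ((⌊(w * M + 1) * x⌋₊ : ℕ) : ℝ) ^ (1 / (t : ℝ)) := by
        apply Real.rpow_le_rpow (by linarith) (by exact_mod_cast h1) (by positivity)
      have h3 := Nat.lt_floor_add_one (((⌊(w * M + 1) * x⌋₊ : ℕ) : ℝ) ^ (1 / (t : ℝ)))
      have h4 : ((Yx (w * M + 1) t x : ℕ) : ℝ) + 1 ≤ q := by exact_mod_cast h
      unfold Yx at h4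
      linarith
    by_cases h1 : a = 1 ∧ q ∣ a * (p + 1) - 1
    · obtain ⟨rfl, h2⟩ := h1
      rw [one_mul, Nat.add_sub_cancel] at h2
      have h3 : q = p := (Nat.prime_dvd_prime_iff_eq hq hG.1).1 h2
      rw [h3]
      have h4 : (p : ℝ) ^ (1 / (t : ℝ)) < (p : ℝ) ^ (1 : ℝ) := by
        apply Real.rpow_lt_rpow_of_exponent_lt (by linarith)
        rw [div_lt_one ht0]
        exact_mod_cast (show 1 < t by omega)
      rwa [Real.rpow_one] at h4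
    · apply hlarge
      apply hG.free (by omega) ha haK hq
      rcases hd with hd | hd
      · right
        refine ⟨?_, hd⟩
        by_contra hcon
        exact h1 ⟨by omega, hd⟩
      · exact Or.inl hd
  · intro a b ha hab hbM
    obtain ⟨x₀, hx₀⟩ := hLo a b ha hab hbM
    refine ⟨max x₀ 1, ?_⟩
    intro x hx
    obtain ⟨T, hT1, hT2⟩ := hx₀ x ((le_max_left _ _).trans hx)
    have hx1 : 1 ≤ x := (le_max_right _ _).trans hx
    have h1 : 0 < c * (b - a) * x * VV (Z0 (OmK K z)) z (Yx (w * M + 1) t x) := by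
      have h2 : 0 < b - a := by linarith
      have h3 := hV x
      positivity
    have h2 : 0 < T.card := by
      have : (0 : ℝ) < T.card := by linarith
      exact_mod_cast this
    obtain ⟨p, hp⟩ := Finset.card_pos.1 h2
    obtain ⟨h3, h4, h5⟩ := hT1 p hp
    exact ⟨p, h3, h4, h4.trans (mul_le_mul_of_nonneg_right hbM (by linarith)), h5⟩
  · intro s hs hs1
    obtain ⟨C, hC, x₁, hU⟩ := hUp s hs hs1
    refine near hV hc ?_ hs hs1 hC (x₁ := x₁) ?_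
    · intro a b ha hab hbM
      obtain ⟨x₀, hx₀⟩ := hLo a b ha hab hbM
      refine ⟨max x₀ 1, ?_⟩
      intro x hx
      obtain ⟨T, hT1, hT2⟩ := hx₀ x ((le_max_left _ _).trans hx)
      have hx1 : 1 ≤ x := (le_max_right _ _).trans hx
      refine ⟨T, ?_, hT2⟩
      intro p hp
      obtain ⟨h3, h4, h5⟩ := hT1 p hp
      exact ⟨h3, h4, h4.trans (mul_le_mul_of_nonneg_right hbM (by linarith)), h5⟩
    · intro x hx A L hL T hT
      exact hU x hx A L hL T fun p hp => ⟨(hT p hp).1, (hT p hp).2.1, (hT p hp).2.2.2⟩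

/-- the sequences of an unbounded set -/
theorem seqs {Λ : Set ℝ} (h : ¬ BddAbove Λ) : ∃ x : ℕ → ℝ, (∀ k, x k ∈ Λ) ∧ Tendsto x atTop atTop := by
  rw [not_bddAbove_iff] at h
  choose x hx1 hx2 using fun k : ℕ => h k
  refine ⟨x, hx1, ?_⟩
  exact tendsto_atTop_mono (fun k => (hx2 k).le) tendsto_natCast_atTop_atTop

/-- `α x` is just below `p + 1` for a good prime `p` -/
def Hit (δ : ℝ) (K w : ℕ) (e : ℤ) (α x : ℝ) : Prop :=
  ∃ p : ℕ, Core δ K w e p ∧ ∀ a : ℕ, 1 ≤ a → a ≤ K → ⌊a * (α * x)⌋ = a * (p + 1) - 1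

theorem floor_of {K p a : ℕ} {y : ℝ} (h : |y - (p + 1 - 1 / (2 * K))| < 1 / (2 * K)) (ha : 1 ≤ a) (haK : a ≤ K) :
    ⌊a * y⌋ = (a : ℤ) * (p + 1) - 1 := by
  have hK0 : (0 : ℝ) < K := by exact_mod_cast (show 0 < K by omega)
  have ha0 : (0 : ℝ) < a := by exact_mod_cast (show 0 < a by omega)
  have haKr : (a : ℝ) ≤ K := by exact_mod_cast haK
  rw [abs_lt] at h
  obtain ⟨h1, h2⟩ := h
  have h3 : (p : ℝ) + 1 - 1 / K < y := by
    have : (1 : ℝ) / K = 1 / (2 * K) + 1 / (2 * K) := by field_simp; norm_num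
    linarith
  have h4 : y < (p : ℝ) + 1 := by linarith
  rw [Int.floor_eq_iff]
  push_cast
  constructor
  · have h5 : (a : ℝ) * (1 / K) ≤ 1 := by
      rw [mul_one_div, div_le_one hK0]
      exact haKr
    have h6 := mul_lt_mul_of_pos_left h3 ha0
    nlinarith
  · have h6 := mul_lt_mul_of_pos_left h4 ha0
    linarith

/-- **dimension one** -/
theorem dimension (K0 w : ℕ) (e : ℤ) (hw : 1 ≤ w) (δ : ℕ → ℝ)
    (hδ : ∀ K, K0 ≤ K → w ≤ K → ∀ M : ℝ, 0 < M → ∃ P : ℝ → ℕ → Prop, (∀ x p, P x p → Core (δ K) K w e p) ∧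
      ∀ s : ℝ, 0 < s → s < 1 → ∃ η : ℝ, 0 < η ∧ ∀ a b : ℝ, 0 ≤ a → a < b → b ≤ M →
        ∃ x₀ : ℝ, ∀ x : ℝ, x₀ ≤ x →
        ∃ G : Set ℝ, MeasurableSet G ∧ G ⊆ Set.Icc a b ∧ (∀ y ∈ G, ∃ p : ℕ, P x p ∧ |y - p / x| < x ^ (-s)) ∧
          η * (b - a) ≤ volume.real G)
    (Λ : ℕ → Set ℝ) (hΛ : ∀ i, ¬ BddAbove (Λ i)) (a b : ℝ) (ha : 0 ≤ a) (hab : a < b) :
    1 ≤ dimH ({α : ℝ | ∀ i K : ℕ, K0 ≤ K → w ≤ K → ∀ T : ℝ, ∃ x ∈ Λ i, T < x ∧ Hit (δ K) K w e α x} ∩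
      Set.Ioo a b) := by
  choose x hxΛ hxt using fun i => seqs (hΛ i)
  set M : ℝ := 2 * b + 1 with hM
  have hM0 : 0 < M := by rw [hM]; linarith
  -- the level for the index `i`
  set lev : ℕ → ℕ := fun i => max (max K0 w) (Nat.unpair i).2 with hlev
  have hlev1 : ∀ i, K0 ≤ lev i := fun i => (le_max_left _ _).trans (le_max_left _ _)
  have hlev2 : ∀ i, w ≤ lev i := fun i => (le_max_right _ _).trans (le_max_left _ _)
  choose P hP1 hP2 using fun i => hδ (lev i) (hlev1 i) (hlev2 i) M hM0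
  have hlr : ∀ i, (1 : ℝ) ≤ lev i := fun i => by exact_mod_cast hw.trans (hlev2 i)
  refine dim_good (P := P) (M := M) (a := a + (b - a) / 3) (b := b - (b - a) / 3) (by linarith) (by linarith)
    (by rw [hM]; linarith) hP2 (fun i => x (Nat.unpair i).1) (fun i => hxt _)
    (fun i => 1 / (2 * (lev i : ℝ))) (fun i => by have := hlr i; positivity) (fun i => by
      have := hlr i
      rw [div_le_one (by positivity)]
      linarith) _ ?_
  intro y hy hyS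
  refine ⟨?_, ⟨by linarith [hy.1], by linarith [hy.2]⟩⟩
  intro i K hK1 hK2 T
  have h1 := hyS (Nat.pair i K)
  have h2 : (Nat.unpair (Nat.pair i K)).1 = i := by rw [Nat.unpair_pair]
  have h3 : lev (Nat.pair i K) = K := by
    rw [hlev]
    show max (max K0 w) (Nat.unpair (Nat.pair i K)).2 = K
    rw [Nat.unpair_pair]
    exact max_eq_right (max_le hK1 hK2)
  obtain ⟨k, ⟨p, hp1, hp2⟩, hk⟩ := (h1.and_eventually ((hxt (Nat.unpair (Nat.pair i K)).1).eventually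
    (eventually_gt_atTop T))).exists
  have hp3 := hP1 _ _ _ hp1
  simp only [h2, h3] at hp2 hp3 hk
  exact ⟨x i k, hxΛ i k, hk, p, hp3, fun a ha haK => floor_of hp2 ha haK⟩

/-- **residual** -/
theorem residual_good (K0 w : ℕ) (e : ℤ) (hw : 1 ≤ w) (δ : ℕ → ℝ)
    (hδ : ∀ K, K0 ≤ K → w ≤ K → ∀ M : ℝ, 0 < M → ∃ P : ℝ → ℕ → Prop, (∀ x p, P x p → Core (δ K) K w e p) ∧
      ∀ a b : ℝ, 0 ≤ a → a < b → b ≤ M → ∃ x₀ : ℝ, ∀ x : ℝ, x₀ ≤ x →
        ∃ p : ℕ, a * x < p ∧ (p : ℝ) ≤ b * x ∧ P x p)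
    (Λ : ℕ → Set ℝ) (hΛ : ∀ i, ¬ BddAbove (Λ i)) :
    {α : ℝ | 0 < α → ∀ i K : ℕ, K0 ≤ K → w ≤ K → ∀ T : ℝ, ∃ x ∈ Λ i, T < x ∧ Hit (δ K) K w e α x} ∈
      residual ℝ := by
  set U : ℕ → ℕ → ℕ → Set ℝ := fun i K N => Set.Iio 0 ∪ ⋃ x ∈ {x : ℝ | x ∈ Λ i ∧ (N : ℝ) < x},
    ⋃ p ∈ {p : ℕ | Core (δ K) K w e p}, Set.Ioo (((p : ℝ) + 1 - 1 / K) / x) (((p : ℝ) + 1) / x) with hU
  have hopen : ∀ i K N, IsOpen (U i K N) := by
    intro i K N
    apply IsOpen.union isOpen_Iio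
    exact isOpen_biUnion fun x _ => isOpen_biUnion fun p _ => isOpen_Ioo
  have hdense : ∀ i K N, K0 ≤ K → w ≤ K → Dense (U i K N) := by
    intro i K N hK1 hK2
    rw [dense_iff_inter_open]
    intro V hV hVne
    obtain ⟨v, hv⟩ := hVne
    obtain ⟨ε, hε, hball⟩ := Metric.isOpen_iff.1 hV v hv
    rcases lt_or_ge v 0 with hv0 | hv0
    · exact ⟨v, hv, Or.inl hv0⟩
    obtain ⟨P, hP1, hP2⟩ := hδ K hK1 hK2 (v + ε) (by linarith)
    obtain ⟨x₀, hx₀⟩ := hP2 (v + ε / 4) (v + ε / 2) (by linarith) (by linarith) (by linarith)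
    have hΛ' := hΛ i
    rw [not_bddAbove_iff] at hΛ'
    obtain ⟨x, hxΛ, hx⟩ := hΛ' (max x₀ (max (N : ℝ) (4 / ε)))
    have hx1 : x₀ ≤ x := ((le_max_left _ _).trans hx.le)
    have hx2 : (N : ℝ) < x := lt_of_le_of_lt ((le_max_left _ _).trans (le_max_right _ _)) hx
    have hx3 : 4 / ε < x := lt_of_le_of_lt ((le_max_right _ _).trans (le_max_right _ _)) hx
    have hx0 : 0 < x := lt_of_le_of_lt (Nat.cast_nonneg N) hx2
    rw [div_lt_iff₀ hε] at hx3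
    obtain ⟨p, h1, h2, h3⟩ := hx₀ x hx1
    have hK0 : (1 : ℝ) ≤ K := by exact_mod_cast hw.trans hK2
    have hKi : 0 < (1 : ℝ) / K := by positivity
    have hKi1 : (1 : ℝ) / K ≤ 1 := by
      rw [div_le_one (by linarith)]
      exact hK0
    obtain ⟨y, hy1, hy2⟩ := exists_between (show ((p : ℝ) + 1 - 1 / K) / x < ((p : ℝ) + 1) / x by
      apply div_lt_div_of_pos_right _ hx0
      linarith)
    refine ⟨y, hball ?_, Or.inr ?_⟩
    · rw [Metric.mem_ball, Real.dist_eq, abs_lt]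
      rw [div_lt_iff₀ hx0] at hy1
      rw [lt_div_iff₀ hx0] at hy2
      constructor
      · by_contra hcon
        push Not at hcon
        have : (y - v) * x ≤ -ε * x := mul_le_mul_of_nonneg_right hcon hx0.le
        nlinarith
      · by_contra hcon
        push Not at hcon
        have : ε * x ≤ (y - v) * x := mul_le_mul_of_nonneg_right hcon hx0.le
        nlinarith
    · rw [Set.mem_iUnion₂]
      refine ⟨x, ⟨hxΛ, hx2⟩, ?_⟩
      rw [Set.mem_iUnion₂]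
      exact ⟨p, hP1 _ _ h3, hy1, hy2⟩
  have hres : (⋂ i : ℕ, ⋂ K : ℕ, ⋂ N : ℕ, (if K0 ≤ K ∧ w ≤ K then U i K N else Set.univ)) ∈ residual ℝ := by
    rw [countable_iInter_mem]
    intro i
    rw [countable_iInter_mem]
    intro K
    rw [countable_iInter_mem]
    intro N
    split_ifs with h
    · exact residual_of_dense_open (hopen i K N) (hdense i K N h.1 h.2)
    · exact univ_mem
  refine mem_of_superset hres ?_
  intro α hα hα0 i K hK1 hK2 T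
  have h1 := Set.mem_iInter.1 (Set.mem_iInter.1 (Set.mem_iInter.1 hα i) K) ⌈T⌉₊
  rw [if_pos ⟨hK1, hK2⟩] at h1
  rcases h1 with h1 | h1
  · exact absurd hα0 (not_lt.2 (le_of_lt h1))
  rw [Set.mem_iUnion₂] at h1
  obtain ⟨x, ⟨hxΛ, hxN⟩, h2⟩ := h1
  rw [Set.mem_iUnion₂] at h2
  obtain ⟨p, hp, h3, h4⟩ := h2
  have hx0 : 0 < x := lt_of_le_of_lt (Nat.cast_nonneg _) hxN
  rw [div_lt_iff₀ hx0] at h3
  rw [lt_div_iff₀ hx0] at h4
  refine ⟨x, hxΛ, lt_of_le_of_lt (Nat.le_ceil T) hxN, p, hp, ?_⟩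
  intro a ha haK
  apply floor_of _ ha haK
  have hKr : (0 : ℝ) < K := by exact_mod_cast (show 0 < K by omega)
  have h5 : (1 : ℝ) / K = 1 / (2 * K) + 1 / (2 * K) := by field_simp; norm_num
  rw [abs_lt]
  constructor <;> linarith

theorem Core.mono {δ : ℝ} {K K' w : ℕ} {e : ℤ} {p : ℕ} (h : Core δ K' w e p) (hK : K ≤ K') : Core δ K w e p :=
  ⟨h.1, h.2.1, fun a q ha haK => h.2.2 a q ha (haK.trans hK)⟩

theorem Hit.mono {δ : ℝ} {K K' w : ℕ} {e : ℤ} {α x : ℝ} (h : Hit δ K' w e α x) (hK : K ≤ K') :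
    Hit δ K w e α x := by
  obtain ⟨p, h1, h2⟩ := h
  exact ⟨p, h1.mono hK, fun a ha haK => h2 a ha (haK.trans hK)⟩

/-- **the main theorem for arbitrary unbounded sets** -/
theorem main_gen (w : ℕ) (e : ℤ) (he : e = 1 ∨ (e = -1 ∧ 2 ≤ w)) (hw : 1 ≤ w) :
    ∃ δ : ℕ → ℝ, (∀ K, 0 < δ K) ∧ ∀ Λ : ℕ → Set ℝ, (∀ i, ¬ BddAbove (Λ i)) →
      {α : ℝ | 0 < α → ∀ i K : ℕ, ∀ T : ℝ, ∃ x ∈ Λ i, T < x ∧ Hit (δ K) K w e α x} ∈ residual ℝ ∧
      ∀ a b : ℝ, 0 ≤ a → a < b →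
        dimH ({α : ℝ | ∀ i K : ℕ, ∀ T : ℝ, ∃ x ∈ Λ i, T < x ∧ Hit (δ K) K w e α x} ∩ Set.Ioo a b) = 1 := by
  choose δ' hδ0 hδ using fun K : ℕ => core (max K w) w e he hw (le_max_right _ _)
  set δ : ℕ → ℝ := fun K => δ' (max K w) with hδd
  have hδ' : ∀ K, w ≤ K → max (max K w) w = K := fun K hK => by
    rw [max_eq_left hK, max_eq_left hK]
  have hup : ∀ K, (max (max (max K w) w) w) = max K w := fun K => by
    simp
  refine ⟨δ, fun K => hδ0 _, ?_⟩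
  intro Λ hΛ
  have hδ2 : ∀ K, w ≤ K → δ' K = δ K := fun K hK => by
    rw [hδd]
    show δ' K = δ' (max K w)
    rw [max_eq_left hK]
  have hmax : ∀ K, δ (max K w) = δ K := fun K => by
    rw [hδd]
    show δ' (max (max K w) w) = δ' (max K w)
    rw [max_eq_left (le_max_right K w)]
  constructor
  · have h1 := residual_good 0 w e hw δ (fun K _ hK M hM => by
      obtain ⟨P, hP1, hP2, _⟩ := hδ K M hM
      rw [max_eq_left hK, hδ2 K hK] at hP1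
      exact ⟨P, hP1, hP2⟩) Λ hΛ
    refine mem_of_superset h1 ?_
    intro α hα hα0 i K T
    obtain ⟨x, hx, hxT, hH⟩ := hα hα0 i (max K w) (Nat.zero_le _) (le_max_right _ _) T
    rw [hmax] at hH
    exact ⟨x, hx, hxT, hH.mono (le_max_left _ _)⟩
  · intro a b ha hab
    apply le_antisymm
    · exact (dimH_mono (Set.subset_univ _)).trans (le_of_eq Real.dimH_univ)
    · have h1 := dimension 0 w e hw δ (fun K _ hK M hM => by
        obtain ⟨P, hP1, _, hP2⟩ := hδ K M hM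
        rw [max_eq_left hK, hδ2 K hK] at hP1
        exact ⟨P, hP1, hP2⟩) Λ hΛ a b ha hab
      refine h1.trans (dimH_mono ?_)
      rintro α ⟨hα, hab'⟩
      refine ⟨?_, hab'⟩
      intro i K T
      obtain ⟨x, hx, hxT, hH⟩ := hα i (max K w) (Nat.zero_le _) (le_max_right _ _) T
      rw [hmax] at hH
      exact ⟨x, hx, hxT, hH.mono (le_max_left _ _)⟩

end Pool.Agent.W5h22.CD
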